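import Mathlib

/-!
# Primitive extensions with symmetric group: definitions

An extension `F / K` is primitive if there are no fields strictly between `K` and `F`, and `F ≠ K`.
-/

set_option autoImplicit false

namespace Pool.Agent.H67.Primitive

open NumberField IsDedekindDomain

/-- The number of `K`-embeddings of `F` into the subfield of `L` fixed by `g`. -/
noncomputable def embeddings {K L : Type} [Field K] [Field L] [Algebra K L]
    (F : IntermediateField K L) (g : Gal(L/K)) : ℕ :=
  Nat.card {τ : F →ₐ[K] L // ∀ x, g (τ x) = τ x}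

/-- There are no fields strictly between `K` and `F`, and `F ≠ K`. -/
def IsPrimitive (K F : Type) [Field K] [Field F] [Algebra K F] : Prop :=
  (⊥ : IntermediateField K F) ≠ ⊤ ∧ ∀ E : IntermediateField K F, E = ⊥ ∨ E = ⊤

/-- `F` is contained in a Galois extension `L` of `K` whose group is the symmetric group `S_n`. -/
def InSymmetric (n : ℕ) (K F : Type) [Field K] [Field F] [Algebra K F] : Prop :=
  ∃ (L : Type) (_ : Field L) (_ : Algebra K L), IsGalois K L ∧
    Nonempty (Gal(L/K) ≃* Equiv.Perm (Fin n)) ∧ Nonempty (F →ₐ[K] L)

/-- The prime `v` of `K` splits completely in `F`: there are `[F : K]` primes of `F` above `v`. -/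
def SplitsCompletely {K : Type} [Field K] [NumberField K] (v : HeightOneSpectrum (𝓞 K))
    (F : Type) [Field F] [NumberField F] [Algebra K F] : Prop :=
  Nat.card {u : HeightOneSpectrum (𝓞 F) // u.asIdeal.under (𝓞 K) = v.asIdeal} =
    Module.finrank K F

/-- The real places of `K` split completely in `F`: an embedding of `F` in `ℂ` which is real on `K` is
real. -/
def RealPlacesSplit (K F : Type) [Field K] [Field F] [Algebra K F] : Prop :=
  ∀ ψ : F →+* ℂ, (∀ x : K, (ψ (algebraMap K F x)).im = 0) → ∀ y : F, (ψ y).im = 0

/-- The extensions `F / K` of the theorem: primitive, of degree `(2m choose k)` with `1 ≤ k < m` or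
`(2m choose m) / 2`, contained in an extension with group `S_{2m}`; the primes in `S` and the real places
of `K` split completely in `F`. -/
structure SpecialExtension (m : ℕ) {K : Type} [Field K] [NumberField K]
    (S : Finset (HeightOneSpectrum (𝓞 K))) (F : Type) [Field F] [NumberField F] [Algebra K F] :
    Prop where
  primitive : IsPrimitive K F
  degree : 2 * Module.finrank K F = (2 * m).choose m ∨
    ∃ k, 1 ≤ k ∧ k < m ∧ Module.finrank K F = (2 * m).choose k
  symmetric : InSymmetric (2 * m) K F
  split : ∀ v ∈ S, SplitsCompletely v F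
  real : RealPlacesSplit K F

/-- The exponents: `1` for `k = 0` and `(-1) ^ (k + 1)` for `1 ≤ k < m`. -/
def exponent {m : ℕ} (k : Fin m) : ℤ := if (k : ℕ) = 0 then 1 else (-1) ^ ((k : ℕ) + 1)

/-- `L / K` is a Galois extension with group `S_{2m}`; `F 0, …, F (m - 1)` are different intermediate
fields, `[F 0 : K] = (2m choose m) / 2`, `[F k : K] = (2m choose k)` for `k ≥ 1`, all of them are special;
and `∑ exponent k · embeddings (F k) g = 1` for all `g`. -/
structure PrimitiveRelation {K L : Type} [Field K] [NumberField K] [Field L] [NumberField L]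
    [Algebra K L] (m : ℕ) (S : Finset (HeightOneSpectrum (𝓞 K)))
    (F : Fin m → IntermediateField K L) : Prop where
  isGalois : IsGalois K L
  group : Nonempty (Gal(L/K) ≃* Equiv.Perm (Fin (2 * m)))
  different : Function.Injective F
  degree_zero : ∀ k : Fin m, (k : ℕ) = 0 → 2 * Module.finrank K (F k) = (2 * m).choose m
  degree_pos : ∀ k : Fin m, (k : ℕ) ≠ 0 → Module.finrank K (F k) = (2 * m).choose k
  special : ∀ k, SpecialExtension m S (F k)
  relation : ∀ g : Gal(L/K), ∑ k, exponent k * (embeddings (F k) g : ℤ) = 1

end Pool.Agent.H67.Primitive
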