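import Pool.Agent.H67.PF.Prim
import Pool.Agent.H26.Lib.R_pool_sql_team_seeded_3997aac3.Q5.RY.Rigid

/-! Beilinson's conjecture and primitive extensions. -/

set_option autoImplicit false
set_option linter.unusedSectionVars false

namespace Pool.Agent.H67.Primitive

open NumberField Module IsDedekindDomain Polynomial Pool.Agent.W353.NF Pool.Agent.W401.Cheb
  Pool.Agent.Q5.BR Pool.Agent.Q5.VL Pool.Agent.Q5.RG

/-- a normal subfield of the algebraic closure isomorphic to `L` -/
theorem exists_range (K L : Type) [Field K] [NumberField K] [Field L] [NumberField L] [Algebra K L]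
    [IsGalois K L] : ∃ N : IntermediateField K (AlgebraicClosure K), FiniteDimensional K N ∧
      Normal K N ∧ Nonempty (N ≃ₐ[K] L) ∧
      ∀ (F : IntermediateField K L) (i : F →ₐ[K] AlgebraicClosure K), i.fieldRange ≤ N := by
  have hfd : FiniteDimensional K L := by
    have : IsScalarTower ℚ K L := inferInstance
    exact FiniteDimensional.right ℚ K L
  let ι : L →ₐ[K] AlgebraicClosure K := IsAlgClosed.lift
  let e : L ≃ₐ[K] ι.fieldRange := AlgEquiv.ofInjectiveField ι
  have hn : Normal K ι.fieldRange := Normal.of_algEquiv e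
  refine ⟨ι.fieldRange, e.toLinearEquiv.finiteDimensional, hn, ⟨e.symm⟩, fun F i => ?_⟩
  let _ : Algebra F (AlgebraicClosure K) := i.toRingHom.toAlgebra
  have ht : IsScalarTower K F (AlgebraicClosure K) :=
    IsScalarTower.of_algebraMap_eq fun x => (i.commutes x).symm
  let i' : L →ₐ[F] AlgebraicClosure K := IsAlgClosed.lift
  let i'' : L →ₐ[K] AlgebraicClosure K := i'.restrictScalars K
  have h1 : ∀ x : F, i'' (x : L) = i x := fun x => i'.commutes x
  have h2 : (i''.comp (e.symm : ι.fieldRange →ₐ[K] L)).fieldRange = ι.fieldRange :=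
    AlgHom.fieldRange_of_normal _
  rintro _ ⟨x, rfl⟩
  rw [← h2]
  refine ⟨e (x : L), ?_⟩
  change i'' (e.symm (e (x : L))) = i x
  rw [AlgEquiv.symm_apply_apply, h1]

/-- **The conjecture over the base field.** -/
theorem conjQ_base {K L : Type} [Field K] [NumberField K] [Field L] [NumberField L]
    [Algebra K L] {r : ℕ} {S : Finset (HeightOneSpectrum (𝓞 K))}
    {F : Fin r → IntermediateField K L} (hF : PrimitiveRelation r S F)
    {n : ℕ} {X : Set (MvPolynomial (Fin n) (𝓞 K))} {d i N : ℕ} (hi : i ≤ 2 * d) {m : ℤ}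
    {Ω : Set ℂ} (hΩ : IsDom Ω (m : ℂ))
    (hsys : ∀ (F : Type) [Field F] [NumberField F] [Algebra K F], ∃ B, Sys X d i N m F B)
    {M : Datum ℚ ℝ (GK K)} (hM : GoodM M) (hL : ∃ c, Reg M L c)
    (h : ∀ k, ConjQ X d i N m M Ω (F k)) : ConjQ X d i N m M Ω K := by
  have hG := hF.isGalois
  obtain ⟨N', hfd, hnor, ⟨e⟩, hN'⟩ := exists_range K L
  have hnf : NumberField N' := NumberField.of_module_finite K N'
  let _ : Algebra N' L := (e : N' →ₐ[K] L).toRingHom.toAlgebra
  have htow : IsScalarTower K N' L := IsScalarTower.of_algebraMap_eq fun x => (e.commutes x).symm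
  have hreg : ∃ c, Reg M N' c := Pool.Agent.Q5.RY.reg_sub_any hM (F' := L) hL
  have hregK : ∃ c, Reg M K c := Pool.Agent.Q5.RY.reg_sub_any hM (F' := N') hreg
  obtain ⟨c₀, hc₀⟩ := hreg
  refine ⟨hregK, fun B hB => ?_⟩
  have hK : ∀ i : K →ₐ[K] AlgebraicClosure K, i.fieldRange ≤ N' := by
    rintro i _ ⟨x, rfl⟩
    have h1 : i.toRingHom x = algebraMap K (AlgebraicClosure K) x := i.commutes x
    rw [h1]
    exact N'.algebraMap_mem x
  have key : PowL m M Ω K B (1 * 1) := powL_step hi hΩ hM hsys K (ι := Fin r)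
    (Y := fun k => (⟨F k⟩ : Ext K)) (fun σ => hF.fixn σ)
    (N' := N') hK (fun k i => hN' (F k) i) hc₀ (fun k => (h k).2) B hB
  rwa [one_mul] at key

end Pool.Agent.H67.Primitive
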