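import Pool.Agent.H67.PF.Three
import Pool.Agent.H67.PF.Defs
import Pool.Agent.H26.K4.Gen

/-! Primitive extensions with symmetric group suffice: the general form. -/

set_option autoImplicit false
set_option linter.unusedSectionVars false

namespace Pool.Agent.H67.Primitive

open NumberField IsDedekindDomain Pool.Agent.H67.PF
open scoped Pointwise

section
variable {K L : Type} [Field K] [NumberField K] [Field L] [NumberField L] [Algebra K L]

omit [NumberField K] [NumberField L] in
theorem isPrimitive_of_atom {F : IntermediateField K L} (hF : IsAtom F) : IsPrimitive K F := by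
  have h1 : ∀ E : IntermediateField K F, E = ⊥ ∨ E = ⊤ := by
    intro E
    rcases hF.le_iff.1 (IntermediateField.lift_le E) with h | h
    · left
      apply IntermediateField.lift_injective F
      rw [h, IntermediateField.lift_bot]
    · right
      apply IntermediateField.lift_injective F
      rw [h, IntermediateField.lift_top]
  refine ⟨fun h => hF.1 ?_, h1⟩
  have h2 := congrArg IntermediateField.lift h
  rw [IntermediateField.lift_bot, IntermediateField.lift_top] at h2
  exact h2.symm

end

/-- the special fields -/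
theorem special_Fk {K L : Type} [Field K] [NumberField K] [Field L] [NumberField L] [Algebra K L]
    [IsGalois K L] {m : ℕ} (h3 : 3 ≤ m) (S : Finset (HeightOneSpectrum (𝓞 K)))
    (hsplit : ∀ v ∈ S, ∀ w : HeightOneSpectrum (𝓞 L), w.asIdeal.under (𝓞 K) = v.asIdeal →
      ∀ σ : Gal(L/K), σ • w.asIdeal = w.asIdeal → σ = 1)
    (hreal : ∀ ψ : L →+* ℂ, (∀ x : K, (ψ (algebraMap K L x)).im = 0) → ∀ y, (ψ y).im = 0)
    (ρ : Gal(L/K) →* Equiv.Perm (Fin (2 * m))) (hρ : Function.Bijective ρ) (k : Fin m) :
    SpecialExtension m S (Fk ρ k) where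
  primitive := isPrimitive_of_atom (atom_Fk ρ hρ.2 (by omega) k)
  degree := by
    by_cases hk : (k : ℕ) = 0
    · exact Or.inl (finrank_Fk_zero ρ hρ.2 (by omega) k hk)
    · exact Or.inr ⟨k, by omega, k.2, finrank_Fk_pos ρ hρ.2 k hk⟩
  symmetric := ⟨L, inferInstance, inferInstance, inferInstance,
    ⟨MulEquiv.ofBijective ρ hρ⟩, ⟨(Fk ρ k).val⟩⟩
  split := fun v hv => card_primes (Fk ρ k) v (hsplit v hv)
  real := fun ψ hψ y => real_inter (Fk ρ k) hreal ψ hψ y

/-- **The relation.** -/
theorem exists_primitive_relation (K : Type) [Field K] [NumberField K] {m : ℕ} (hm : Odd m)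
    (h3 : 3 ≤ m) (S : Finset (HeightOneSpectrum (𝓞 K))) :
    ∃ (L : Type) (_ : Field L) (_ : NumberField L) (_ : Algebra K L)
      (F : Fin m → IntermediateField K L), PrimitiveRelation m S F := by
  obtain ⟨L, _, _, _, hG, hsplit, hreal, ρ, hρ⟩ := exists_sym K S (n := 2 * m) ⟨m, two_mul m⟩
    (by omega)
  refine ⟨L, inferInstance, inferInstance, inferInstance, Fk ρ, ⟨hG, ⟨MulEquiv.ofBijective ρ hρ⟩,
    Fk_inj (K := K) (L := L) ρ hρ.2, fun k hk => finrank_Fk_zero ρ hρ.2 (by omega) k hk,
    fun k hk => finrank_Fk_pos ρ hρ.2 k hk, special_Fk h3 S hsplit hreal ρ hρ, fun g => ?_⟩⟩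
  rw [← relation_Fk ρ hρ.2 hm g]
  refine Finset.sum_congr rfl fun k _ => ?_
  rw [Pool.Agent.R433.MD.fx_eq_emb]
  rfl

open Pool.Agent.Q5.BR (Ext)
open Pool.Agent.W353.NF (fixn)
open Pool.Agent.W401.Cheb (GK)
open Pool.Agent.Q5.VL (IsLaw)

/-- the relation, in terms of the absolute Galois group -/
theorem PrimitiveRelation.fixn {K L : Type} [Field K] [NumberField K] [Field L] [NumberField L]
    [Algebra K L] {m : ℕ} {S : Finset (HeightOneSpectrum (𝓞 K))}
    {F : Fin m → IntermediateField K L} (h : PrimitiveRelation m S F) (σ : GK K) :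
    ∑ k, exponent k * (fixn K (F k) σ : ℤ) = 1 := by
  have hG := h.isGalois
  obtain ⟨g, hg⟩ := Pool.Agent.H26.K4.fixn_eq_emb (K := K) (L := L) σ
  rw [← h.relation g]
  refine Finset.sum_congr rfl fun k _ => ?_
  exact congrArg (fun t : ℕ => exponent k * (t : ℤ)) (hg (F k))

section
variable {K : Type} [Field K] [NumberField K]
  {P : ∀ (F : Type) [Field F] [NumberField F] [Algebra K F], ℤ → Prop}

/-- **The law over the base field.** -/
theorem law_base (hP : IsLaw P) {m : ℕ} (hm : Odd m) (h3 : 3 ≤ m)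
    (S : Finset (HeightOneSpectrum (𝓞 K)))
    (h : ∀ (F : Type) [Field F] [NumberField F] [Algebra K F], SpecialExtension m S F → P F 1) :
    P K 1 := by
  obtain ⟨L, _, _, _, F, hF⟩ := exists_primitive_relation K hm h3 S
  have h1 := hP.step K (Fin m) (fun k => ⟨F k⟩) exponent 1 (fun σ => hF.fixn σ) 1
    fun k => h (F k) (hF.special k)
  rwa [mul_one] at h1

/-- **The law over all extensions.** -/
theorem law_all (hP : IsLaw P) {m : ℕ} (hm : Odd m) (h3 : 3 ≤ m)
    (S : ∀ (F : Type) [Field F] [NumberField F] [Algebra K F], Finset (HeightOneSpectrum (𝓞 F)))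
    (h : ∀ (F F' : Type) [Field F] [NumberField F] [Algebra K F] [Field F'] [NumberField F']
      [Algebra K F'] [Algebra F F'] [IsScalarTower K F F'], SpecialExtension m (S F) F' → P F' 1)
    (F : Type) [Field F] [NumberField F] [Algebra K F] : P F 1 := by
  obtain ⟨L, _, _, _, F', hF⟩ := exists_primitive_relation F hm h3 (S F)
  let Y : Fin m → Ext F := fun k => ⟨F' k⟩
  let _ : ∀ j, Algebra K (Y j).F := fun j =>
    ((algebraMap F (Y j).F).comp (algebraMap K F)).toAlgebra
  have ht : ∀ j, IsScalarTower K F (Y j).F := fun j =>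
    IsScalarTower.of_algebraMap_eq fun x => rfl
  have h1 := hP.step F (Fin m) Y exponent 1 (fun σ => hF.fixn σ) 1
    fun k => h F (Y k).F (hF.special k)
  rwa [mul_one] at h1

end

end Pool.Agent.H67.Primitive
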