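import Pool.Agent.H67.PF.Comb

/-! Stabilizers of subsets and of partitions into two blocks. -/

set_option autoImplicit false
set_option linter.unusedSectionVars false

namespace Pool.Agent.H67.PF

open Finset

section
variable {β : Type} [DecidableEq β]

theorem im_one (B : Finset β) : im (1 : Equiv.Perm β) B = B := by
  unfold im
  exact Finset.image_id

theorem im_mul (g h : Equiv.Perm β) (B : Finset β) : im (g * h) B = im g (im h B) := by
  unfold im
  rw [Finset.image_image]
  rfl

variable {G : Type} [Group G] (τ : G →* Equiv.Perm β)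

/-- the stabilizer of a finite set -/
def Stab (B : Finset β) : Subgroup G where
  carrier := {x | im (τ x) B = B}
  one_mem' := by
    change im (τ 1) B = B
    rw [map_one, im_one]
  mul_mem' := by
    intro x y hx hy
    change im (τ (x * y)) B = B
    rw [map_mul, im_mul]
    have hx' : im (τ x) B = B := hx
    have hy' : im (τ y) B = B := hy
    rw [hy', hx']
  inv_mem' := by
    intro x hx
    have hx' : im (τ x) B = B := hx
    change im (τ x⁻¹) B = B
    conv_lhs => rw [← hx']
    rw [← im_mul, ← map_mul, inv_mul_cancel, map_one, im_one]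

theorem mem_Stab {B : Finset β} {x : G} : x ∈ Stab τ B ↔ im (τ x) B = B := Iff.rfl

theorem im_eq_im_iff {B : Finset β} {x y : G} :
    im (τ x) B = im (τ y) B ↔ x⁻¹ * y ∈ Stab τ B := by
  rw [mem_Stab, map_mul, im_mul]
  constructor
  · intro h
    rw [← h, ← im_mul, ← map_mul, inv_mul_cancel, map_one, im_one]
  · intro h
    conv_lhs => rw [← h]
    rw [← im_mul, ← map_mul, mul_inv_cancel, map_one, im_one]

/-- the fixed points on the cosets of the stabilizer -/
theorem card_fixed (B : Finset β) (g : G) :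
    Nat.card {c : G ⧸ Stab τ B // g • c = c} =
      Nat.card {C : Finset β // (∃ x, C = im (τ x) B) ∧ im (τ g) C = C} := by
  let f : G ⧸ Stab τ B → Finset β := fun c => Quotient.liftOn' c (fun x => im (τ x) B) (by
    intro x y h
    rw [QuotientGroup.leftRel_apply] at h
    exact (im_eq_im_iff τ).2 h)
  have hf : ∀ x : G, f (QuotientGroup.mk x) = im (τ x) B := fun x => rfl
  have hinj : Function.Injective f := by
    intro c d h
    induction c using QuotientGroup.induction_on with
    | H x =>
      induction d using QuotientGroup.induction_on with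
      | H y =>
        rw [hf, hf, im_eq_im_iff] at h
        exact QuotientGroup.eq.2 h
  have hsm : ∀ (x : G) (c : G ⧸ Stab τ B), f (x • c) = im (τ x) (f c) := by
    intro x c
    induction c using QuotientGroup.induction_on with
    | H y =>
      rw [MulAction.Quotient.smul_mk, hf, hf, smul_eq_mul, map_mul, im_mul]
  refine Nat.card_congr (Equiv.ofBijective (fun c => ⟨f c.1, ?_, ?_⟩) ⟨?_, ?_⟩)
  · induction c.1 using QuotientGroup.induction_on with
    | H y => exact ⟨y, hf y⟩
  · rw [← hsm, c.2]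
  · intro c d h
    have h1 : f c.1 = f d.1 := congrArg (fun z => z.1) h
    exact Subtype.ext (hinj h1)
  · rintro ⟨C, ⟨x, rfl⟩, h⟩
    refine ⟨⟨QuotientGroup.mk x, ?_⟩, Subtype.ext (hf x)⟩
    apply hinj
    rw [hsm, hf, h]

end

section
variable {α : Type} [Fintype α] [DecidableEq α] {G : Type} [Group G] (ρ : G →* Equiv.Perm α)

/-- the diagonal action on the pairs, as a homomorphism -/
def dgHom : Equiv.Perm α →* Equiv.Perm (α × α) where
  toFun g := dg g
  map_one' := by
    ext p <;> rfl
  map_mul' g h := by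
    ext p <;> rfl

theorem exists_perm {A B : Finset α} (h : A.card = B.card) : ∃ g : Equiv.Perm α, im g A = B := by
  have h1 : Fintype.card {x // x ∈ A} = Fintype.card {x // x ∈ B} := by simpa using h
  let e : {x // x ∈ A} ≃ {x // x ∈ B} := Fintype.equivOfCardEq h1
  refine ⟨e.extendSubtype, ?_⟩
  rw [im_eq_iff]
  intro x
  constructor
  · intro hx
    by_contra hne
    exact e.extendSubtype_not_mem x hne hx
  · intro hx
    exact e.extendSubtype_mem x hx

/-- the fixed points for the subsets -/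
theorem card_fixed_set (hρ : Function.Surjective ρ) (A : Finset α) (g : G) :
    Nat.card {c : G ⧸ Stab ρ A // g • c = c} = sk (ρ g) A.card := by
  rw [card_fixed, sk, ← Fintype.card_subtype, Fintype.card_eq_nat_card]
  refine Nat.card_congr (Equiv.subtypeEquivRight fun C => ?_)
  constructor
  · rintro ⟨⟨x, rfl⟩, h⟩
    exact ⟨card_im _ _, h⟩
  · rintro ⟨h1, h2⟩
    obtain ⟨g, hg⟩ := exists_perm h1.symm
    obtain ⟨x, rfl⟩ := hρ g
    exact ⟨⟨x, hg.symm⟩, h2⟩

/-- the fixed points for the partitions -/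
theorem card_fixed_part (hρ : Function.Surjective ρ) (A : Finset α) (g : G) :
    Nat.card {c : G ⧸ Stab (dgHom.comp ρ) (sb A) // g • c = c} = pk (ρ g) A.card := by
  rw [card_fixed, pk, ← Fintype.card_coe, Fintype.card_eq_nat_card]
  refine Nat.card_congr (Equiv.subtypeEquivRight fun C => ?_)
  rw [Finset.mem_filter, Finset.mem_image]
  constructor
  · rintro ⟨⟨x, rfl⟩, h⟩
    refine ⟨⟨im (ρ x) A, ?_, (im_sb _ _).symm⟩, h⟩
    exact Finset.mem_filter.2 ⟨mem_univ _, card_im _ _⟩
  · rintro ⟨⟨B, hB, rfl⟩, h⟩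
    obtain ⟨g, hg⟩ := exists_perm (Finset.mem_filter.1 hB).2.symm
    obtain ⟨x, rfl⟩ := hρ g
    refine ⟨⟨x, ?_⟩, h⟩
    rw [← hg]
    exact (im_sb _ _).symm

end

/-! ### Maximality -/

section
variable {α : Type} [Fintype α] [DecidableEq α]

theorem top_of_swaps (U : Subgroup (Equiv.Perm α)) (h : ∀ x y, x ≠ y → Equiv.swap x y ∈ U) :
    U = ⊤ := by
  rw [eq_top_iff, ← Equiv.Perm.closure_isSwap, Subgroup.closure_le]
  rintro _ ⟨x, y, hxy, rfl⟩
  exact h x y hxy

theorem swap_trans {U : Subgroup (Equiv.Perm α)} {x y z : α} (h1 : Equiv.swap x y ∈ U)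
    (h2 : Equiv.swap y z ∈ U) : Equiv.swap x z ∈ U :=
  SubmonoidClass.swap_mem_trans U h1 h2

theorem top_of_cliques (U : Subgroup (Equiv.Perm α)) (A B : Finset α)
    (hA : ∀ x y, (x ∈ A ↔ y ∈ A) → Equiv.swap x y ∈ U)
    (hB : ∀ x y, (x ∈ B ↔ y ∈ B) → Equiv.swap x y ∈ U) (hne : B ≠ A) (hne' : B ≠ Aᶜ) :
    U = ⊤ := by
  apply top_of_swaps
  intro x y hxy
  by_cases h : x ∈ A ↔ y ∈ A
  · exact hA x y h
  · have key : ∃ a c, a ∈ A ∧ c ∉ A ∧ (a ∈ B ↔ c ∈ B) := by
      by_contra hcon
      push Not at hcon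
      have h3 : ∃ a, a ∈ A := by tauto
      have h4 : ∃ c, c ∉ A := by tauto
      obtain ⟨a, ha⟩ := h3
      obtain ⟨c, hc⟩ := h4
      have h5 := hcon a c ha hc
      by_cases haB : a ∈ B
      · apply hne
        have hcB : c ∉ B := by tauto
        ext z
        constructor
        · intro hz
          by_contra hzA
          have := hcon a z ha hzA
          tauto
        · intro hz
          have := hcon z c hz hc
          tauto
      · apply hne'
        have hcB : c ∈ B := by tauto
        ext z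
        rw [Finset.mem_compl]
        constructor
        · intro hz hzA
          have := hcon z c hzA hc
          tauto
        · intro hz
          have := hcon a z ha hz
          tauto
    obtain ⟨a, c, ha, hc, hac⟩ := key
    have h1 := hB a c hac
    by_cases hx : x ∈ A
    · have hy : y ∉ A := by tauto
      exact swap_trans (hA x a (by tauto)) (swap_trans h1 (hA c y (by tauto)))
    · have hy : y ∈ A := by tauto
      rw [Equiv.swap_comm] at h1
      exact swap_trans (hA x c (by tauto)) (swap_trans h1 (hA a y (by tauto)))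

theorem im_swap {A : Finset α} {x y : α} (h : x ∈ A ↔ y ∈ A) : im (Equiv.swap x y) A = A := by
  rw [im_eq_iff]
  intro z
  by_cases hx : z = x
  · subst hx
    rw [Equiv.swap_apply_left]
    exact h.symm
  · by_cases hy : z = y
    · subst hy
      rw [Equiv.swap_apply_right]
      exact h
    · rw [Equiv.swap_apply_of_ne_of_ne hx hy]

/-- the swaps for the image -/
theorem swap_mem_conj {U : Subgroup (Equiv.Perm α)} {A : Finset α} {u : Equiv.Perm α} (hu : u ∈ U)
    (hA : ∀ x y, (x ∈ A ↔ y ∈ A) → Equiv.swap x y ∈ U) (x y : α)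
    (h : x ∈ im u A ↔ y ∈ im u A) : Equiv.swap x y ∈ U := by
  obtain ⟨x, rfl⟩ := u.surjective x
  obtain ⟨y, rfl⟩ := u.surjective y
  rw [mem_im, mem_im] at h
  have h1 := Equiv.swap_apply_apply u x y
  rw [h1]
  exact U.mul_mem (U.mul_mem hu (hA x y h)) (U.inv_mem hu)

theorem coatom_set {A : Finset α} (h1 : A.Nonempty) (h2 : Aᶜ.Nonempty)
    (h3 : A.card ≠ Aᶜ.card) : IsCoatom (Stab (MonoidHom.id (Equiv.Perm α)) A) := by
  constructor
  · intro htop
    obtain ⟨x, hx⟩ := h1
    obtain ⟨y, hy⟩ := h2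
    have h4 : Equiv.swap x y ∈ Stab (MonoidHom.id (Equiv.Perm α)) A := by
      rw [htop]
      trivial
    have h5 : im (Equiv.swap x y) A = A := h4
    have h6 := (im_eq_iff.1 h5 x).2 hx
    rw [Equiv.swap_apply_left] at h6
    exact (Finset.mem_compl.1 hy) h6
  · intro U hU
    obtain ⟨hle, hne⟩ := SetLike.lt_iff_le_and_exists.1 hU
    obtain ⟨u, huU, hu⟩ := hne
    have hu' : im u A ≠ A := hu
    have hA : ∀ x y, (x ∈ A ↔ y ∈ A) → Equiv.swap x y ∈ U := fun x y h => hle (im_swap h)
    refine top_of_cliques U A (im u A) hA (swap_mem_conj huU hA) hu' ?_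
    intro h
    apply h3
    rw [← h, card_im]

theorem coatom_part {A : Finset α} (h1 : 2 ≤ A.card) (h2 : Aᶜ.Nonempty) :
    IsCoatom (Stab (dgHom (α := α)) (sb A)) := by
  have hmem : ∀ u : Equiv.Perm α, u ∈ Stab (dgHom (α := α)) (sb A) ↔
      (im u A = A ∨ im u A = Aᶜ) := by
    intro u
    rw [mem_Stab]
    change im (dg u) (sb A) = sb A ↔ _
    rw [im_sb, eq_comm, sb_eq_iff]
  constructor
  · intro htop
    obtain ⟨x, hx, x', hx', hxx⟩ := Finset.one_lt_card.1 h1
    obtain ⟨y, hy⟩ := h2
    have hy' := Finset.mem_compl.1 hy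
    have h4 : Equiv.swap x y ∈ Stab (dgHom (α := α)) (sb A) := by
      rw [htop]
      trivial
    rcases (hmem _).1 h4 with h5 | h5
    · have h6 := (im_eq_iff.1 h5 x).2 hx
      rw [Equiv.swap_apply_left] at h6
      exact hy' h6
    · have h6 := (im_eq_iff.1 h5 x').2 hx'
      rw [Equiv.swap_apply_of_ne_of_ne (Ne.symm hxx) (by
        rintro rfl
        exact hy' hx')] at h6
      exact (Finset.mem_compl.1 h6) hx'
  · intro U hU
    obtain ⟨hle, hne⟩ := SetLike.lt_iff_le_and_exists.1 hU
    obtain ⟨u, huU, hu⟩ := hne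
    rw [hmem] at hu
    push Not at hu
    have hA : ∀ x y, (x ∈ A ↔ y ∈ A) → Equiv.swap x y ∈ U := fun x y h =>
      hle ((hmem _).2 (Or.inl (im_swap h)))
    exact top_of_cliques U A (im u A) hA (swap_mem_conj huU hA) hu.1 hu.2

variable {G : Type} [Group G] (ρ : G →* Equiv.Perm α)

theorem coatom_set' (hρ : Function.Surjective ρ) {A : Finset α} (h1 : A.Nonempty)
    (h2 : Aᶜ.Nonempty) (h3 : A.card ≠ Aᶜ.card) : IsCoatom (Stab ρ A) := by
  have h4 : Stab ρ A = (Stab (MonoidHom.id (Equiv.Perm α)) A).comap ρ := by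
    ext x
    rfl
  rw [h4]
  exact Subgroup.isCoatom_comap_of_surjective hρ (coatom_set h1 h2 h3)

theorem coatom_part' (hρ : Function.Surjective ρ) {A : Finset α} (h1 : 2 ≤ A.card)
    (h2 : Aᶜ.Nonempty) : IsCoatom (Stab (dgHom.comp ρ) (sb A)) := by
  have h4 : Stab (dgHom.comp ρ) (sb A) = (Stab (dgHom (α := α)) (sb A)).comap ρ := by
    ext x
    rfl
  rw [h4]
  exact Subgroup.isCoatom_comap_of_surjective hρ (coatom_part h1 h2)

end

end Pool.Agent.H67.PF
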