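import Mathlib

/-! Invariant subsets of a permutation: an alternating sum. -/

set_option autoImplicit false
set_option linter.unusedSectionVars false

namespace Pool.Agent.H67.PF

open Finset

section
variable {α : Type} [Fintype α] [DecidableEq α] (g : Equiv.Perm α)

/-- the image of a finite set -/
def im (g : Equiv.Perm α) (A : Finset α) : Finset α := A.image g

theorem mem_im {g : Equiv.Perm α} {A : Finset α} {x : α} : g x ∈ im g A ↔ x ∈ A := by
  unfold im
  rw [Finset.mem_image]
  constructor
  · rintro ⟨y, hy, h⟩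
    rwa [← g.injective h]
  · intro h
    exact ⟨x, h, rfl⟩

theorem im_eq_iff {g : Equiv.Perm α} {A B : Finset α} : im g A = B ↔ ∀ x, g x ∈ B ↔ x ∈ A := by
  constructor
  · rintro rfl x
    exact mem_im
  · intro h
    ext y
    obtain ⟨x, rfl⟩ := g.surjective y
    rw [mem_im, h]

theorem card_im (g : Equiv.Perm α) (A : Finset α) : (im g A).card = A.card :=
  Finset.card_image_of_injective A g.injective

theorem im_compl (g : Equiv.Perm α) (A : Finset α) : im g Aᶜ = (im g A)ᶜ := by
  rw [im_eq_iff]
  intro x
  rw [Finset.mem_compl, mem_im, Finset.mem_compl]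

theorem im_symmDiff (g : Equiv.Perm α) (A B : Finset α) :
    im g (symmDiff A B) = symmDiff (im g A) (im g B) := by
  rw [im_eq_iff]
  intro x
  rw [Finset.mem_symmDiff, Finset.mem_symmDiff, mem_im, mem_im]

theorem parity_symmDiff (A C : Finset α) :
    (symmDiff A C).card + 2 * (A ∩ C).card = A.card + C.card := by
  have h1 : symmDiff A C = (A \ C) ∪ (C \ A) := by
    ext x
    simp [Finset.mem_symmDiff]
  have h2 : Disjoint (A \ C) (C \ A) := by
    rw [Finset.disjoint_left]
    intro x hx hx'
    rw [Finset.mem_sdiff] at hx hx'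
    exact hx.2 hx'.1
  rw [h1, Finset.card_union_of_disjoint h2]
  have h3 := Finset.card_inter_add_card_sdiff A C
  have h4 := Finset.card_inter_add_card_sdiff C A
  rw [Finset.inter_comm C A] at h4
  omega

/-- **Dichotomy.** -/
theorem dichotomy (g : Equiv.Perm α) :
    (∃ A : Finset α, im g A = Aᶜ) ∨ ∃ C : Finset α, im g C = C ∧ Odd C.card := by
  classical
  by_cases h : ∃ b : α, Odd (Function.minimalPeriod (g • ·) b)
  · obtain ⟨b, hb⟩ := h
    right
    have hfin : Fintype (MulAction.orbit (Subgroup.zpowers g) b) := Fintype.ofFinite _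
    refine ⟨(MulAction.orbit (Subgroup.zpowers g) b).toFinset, ?_, ?_⟩
    · rw [im_eq_iff]
      intro x
      rw [Set.mem_toFinset, Set.mem_toFinset]
      constructor
      · rintro ⟨⟨_, i, rfl⟩, hi⟩
        refine ⟨⟨g ^ (i - 1), i - 1, rfl⟩, ?_⟩
        change (g ^ (i - 1)) b = x
        have h2 : (g ^ i) b = g x := hi
        apply g.injective
        rw [← h2, ← Equiv.Perm.mul_apply, ← zpow_one_add]
        congr 2
        ring
      · rintro ⟨⟨_, i, rfl⟩, hi⟩
        refine ⟨⟨g ^ (1 + i), 1 + i, rfl⟩, ?_⟩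
        change (g ^ (1 + i)) b = g x
        have h2 : (g ^ i) b = x := hi
        rw [zpow_one_add, Equiv.Perm.mul_apply, h2]
    · rw [Set.toFinset_card]
      have h3 := MulAction.minimalPeriod_eq_card (a := g) (b := b)
      rw [h3] at hb
      exact hb
  · left
    push Not at h
    have heven : ∀ (b : α) (i : ℤ), (g ^ i) b = b → Even i := by
      intro b i hi
      have h1 : g ^ i • b = b := hi
      rw [MulAction.zpow_smul_eq_iff_minimalPeriod_dvd] at h1
      have h2 : Even (Function.minimalPeriod (g • ·) b) := Nat.not_odd_iff_even.1 (h b)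
      obtain ⟨c, hc⟩ := h1
      rw [hc]
      exact ((Int.even_coe_nat _).2 h2).mul_right c
    let s := Equiv.Perm.SameCycle.setoid g
    let β : α → α := fun x => Quotient.out (Quotient.mk s x)
    have hβ1 : ∀ x, ∃ i : ℤ, (g ^ i) (β x) = x := by
      intro x
      exact Quotient.exact (Quotient.out_eq (Quotient.mk s x))
    have hβ2 : ∀ x, β (g x) = β x := by
      intro x
      have : Quotient.mk s (g x) = Quotient.mk s x := by
        apply Quotient.sound
        exact Equiv.Perm.sameCycle_apply_left.2 (Equiv.Perm.SameCycle.refl g x)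
      simp only [β, this]
    refine ⟨Finset.univ.filter (fun x => ∃ i : ℤ, Even i ∧ (g ^ i) (β x) = x), ?_⟩
    rw [im_eq_iff]
    intro x
    rw [Finset.mem_compl, Finset.mem_filter, Finset.mem_filter]
    simp only [Finset.mem_univ, true_and]
    constructor
    · intro hx
      obtain ⟨i, hi⟩ := hβ1 x
      refine ⟨i, ?_, hi⟩
      by_contra hodd
      apply hx
      refine ⟨1 + i, ?_, ?_⟩
      · rw [Int.not_even_iff_odd] at hodd
        exact odd_one.add_odd hodd
      · rw [hβ2, zpow_one_add, Equiv.Perm.mul_apply, hi]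
    · rintro ⟨i, hi, hix⟩ ⟨j, hj, hjx⟩
      rw [hβ2] at hjx
      have h1 : (g ^ (1 + i - j)) (g x) = g x := by
        have h2 : g x = (g ^ j) (β x) := hjx.symm
        rw [h2, ← Equiv.Perm.mul_apply, ← zpow_add]
        have h3 : 1 + i - j + j = 1 + i := by ring
        rw [h3, zpow_one_add, Equiv.Perm.mul_apply, hix, hjx]
      have h4 := heven _ _ h1
      rw [Int.even_sub, Int.even_add] at h4
      simp [hi, hj] at h4

/-- the alternating sum over the invariant subsets -/
theorem alt_sum (g : Equiv.Perm α) :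
    ∑ A ∈ univ.filter (fun A : Finset α => im g A = A), (-1 : ℤ) ^ A.card =
      ((univ.filter (fun A : Finset α => im g A = Aᶜ)).card : ℤ) := by
  rcases dichotomy g with ⟨A0, hA0⟩ | ⟨C, hC, hodd⟩
  · have heven : ∀ A ∈ univ.filter (fun A : Finset α => im g A = A), (-1 : ℤ) ^ A.card = 1 := by
      intro A hA
      rw [Finset.mem_filter] at hA
      have hA' := hA.2
      apply Even.neg_one_pow
      have h1 : (A ∩ A0).card = (A \ A0).card := by
        rw [← card_im g]
        congr 1
        rw [im_eq_iff]
        intro x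
        have h2 : g x ∈ A ↔ x ∈ A := im_eq_iff.1 hA' x
        have h3 : g x ∈ A0ᶜ ↔ x ∈ A0 := im_eq_iff.1 hA0 x
        rw [Finset.mem_compl] at h3
        rw [Finset.mem_sdiff, Finset.mem_inter, h2, h3]
      have h2 := Finset.card_inter_add_card_sdiff A A0
      rw [h1] at h2
      exact ⟨_, h2.symm⟩
    rw [Finset.sum_congr rfl heven, Finset.sum_const, nsmul_eq_mul, mul_one]
    congr 1
    refine Finset.card_nbij' (fun A => symmDiff A A0) (fun A => symmDiff A A0) ?_ ?_ ?_ ?_
    · intro A hA
      have hA' : im g A = A := (Finset.mem_filter.1 hA).2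
      refine Finset.mem_filter.2 ⟨mem_univ _, ?_⟩
      change im g (symmDiff A A0) = (symmDiff A A0)ᶜ
      rw [im_symmDiff, hA', hA0]
      ext x
      simp only [Finset.mem_symmDiff, Finset.mem_compl]
      tauto
    · intro A hA
      have hA' : im g A = Aᶜ := (Finset.mem_filter.1 hA).2
      refine Finset.mem_filter.2 ⟨mem_univ _, ?_⟩
      change im g (symmDiff A A0) = symmDiff A A0
      rw [im_symmDiff, hA', hA0]
      ext x
      simp only [Finset.mem_symmDiff, Finset.mem_compl]
      tauto
    · intro A _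
      exact symmDiff_symmDiff_cancel_right A0 A
    · intro A _
      exact symmDiff_symmDiff_cancel_right A0 A
  · have h0 : (univ.filter (fun A : Finset α => im g A = Aᶜ)) = ∅ := by
      rw [Finset.filter_eq_empty_iff]
      intro A _ hA
      have h1 : (C ∩ A).card = (C \ A).card := by
        rw [← card_im g]
        congr 1
        rw [im_eq_iff]
        intro x
        have h2 : g x ∈ C ↔ x ∈ C := im_eq_iff.1 hC x
        have h3 : g x ∈ Aᶜ ↔ x ∈ A := im_eq_iff.1 hA x
        rw [Finset.mem_compl] at h3
        rw [Finset.mem_sdiff, Finset.mem_inter, h2, h3]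
      have h2 := Finset.card_inter_add_card_sdiff C A
      rw [h1] at h2
      rw [← h2] at hodd
      exact (Nat.not_odd_iff_even.2 ⟨_, rfl⟩) hodd
    rw [h0, Finset.card_empty, Nat.cast_zero]
    refine Finset.sum_involution (fun A _ => symmDiff A C) ?_ ?_ ?_ ?_
    · intro A hA
      have h1 := parity_symmDiff A C
      have h2 : Odd (A.card + (symmDiff A C).card) := by
        rw [Nat.odd_iff] at hodd ⊢
        omega
      change (-1 : ℤ) ^ A.card + (-1 : ℤ) ^ (symmDiff A C).card = 0
      rcases Nat.even_or_odd A.card with h | h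
      · have h3 : Odd (symmDiff A C).card := by
          rw [Nat.odd_iff] at h2 ⊢
          rw [Nat.even_iff] at h
          omega
        rw [h.neg_one_pow, h3.neg_one_pow]
        norm_num
      · have h3 : Even (symmDiff A C).card := by
          rw [Nat.odd_iff] at h2 h
          rw [Nat.even_iff]
          omega
        rw [h.neg_one_pow, h3.neg_one_pow]
        norm_num
    · intro A hA _ h
      have h1 : C = ∅ := by
        have h2 := congrArg (fun B => symmDiff A B) h
        simp only [symmDiff_symmDiff_cancel_left, symmDiff_self] at h2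
        simpa using h2
      rw [h1] at hodd
      simp at hodd
    · intro A hA
      have hA' : im g A = A := (Finset.mem_filter.1 hA).2
      refine Finset.mem_filter.2 ⟨mem_univ _, ?_⟩
      rw [im_symmDiff, hA', hC]
    · intro A hA
      exact symmDiff_symmDiff_cancel_right C A

/-- the number of the invariant `k`-subsets -/
def sk (g : Equiv.Perm α) (k : ℕ) : ℕ :=
  (univ.filter (fun A : Finset α => A.card = k ∧ im g A = A)).card

/-- the number of the subsets mapped to their complements -/
def tk (g : Equiv.Perm α) : ℕ := (univ.filter (fun A : Finset α => im g A = Aᶜ)).card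

theorem alt_sum' (g : Equiv.Perm α) :
    ∑ k ∈ range (Fintype.card α + 1), (-1 : ℤ) ^ k * (sk g k : ℤ) = (tk g : ℤ) := by
  rw [tk, ← alt_sum g]
  rw [← Finset.sum_fiberwise_of_maps_to (s := univ.filter (fun A : Finset α => im g A = A))
    (t := range (Fintype.card α + 1)) (g := fun A => A.card)
    (fun A _ => Finset.mem_range.2 (Nat.lt_succ_of_le (Finset.card_le_univ A)))]
  refine Finset.sum_congr rfl fun k _ => ?_
  rw [Finset.sum_congr rfl (g := fun _ => (-1 : ℤ) ^ k) (fun A hA => by
    rw [(Finset.mem_filter.1 hA).2])]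
  rw [Finset.sum_const, nsmul_eq_mul, mul_comm, sk, Finset.filter_filter]
  congr 4
  ext A
  exact and_comm

theorem sk_symm (g : Equiv.Perm α) {k : ℕ} (hk : k ≤ Fintype.card α) :
    sk g (Fintype.card α - k) = sk g k := by
  unfold sk
  refine Finset.card_nbij' (fun A => Aᶜ) (fun A => Aᶜ) ?_ ?_ ?_ ?_
  · intro A hA
    obtain ⟨h1, h2⟩ := (Finset.mem_filter.1 hA).2
    refine Finset.mem_filter.2 ⟨mem_univ _, ?_, ?_⟩
    · rw [Finset.card_compl, h1]
      omega
    · rw [im_compl, h2]
  · intro A hA
    obtain ⟨h1, h2⟩ := (Finset.mem_filter.1 hA).2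
    refine Finset.mem_filter.2 ⟨mem_univ _, ?_, ?_⟩
    · rw [Finset.card_compl, h1]
    · rw [im_compl, h2]
  · intro A _
    exact compl_compl A
  · intro A _
    exact compl_compl A

theorem sk_zero (g : Equiv.Perm α) : sk g 0 = 1 := by
  unfold sk
  rw [Finset.card_eq_one]
  refine ⟨∅, ?_⟩
  ext A
  rw [Finset.mem_filter, Finset.mem_singleton, Finset.card_eq_zero]
  constructor
  · exact fun h => h.2.1
  · rintro rfl
    exact ⟨mem_univ _, rfl, Finset.image_empty _⟩

/-- the relation of lying in the same block for the partition into `A` and its complement -/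
def sb (A : Finset α) : Finset (α × α) := univ.filter (fun p => p.1 ∈ A ↔ p.2 ∈ A)

theorem mem_sb {A : Finset α} {p : α × α} : p ∈ sb A ↔ (p.1 ∈ A ↔ p.2 ∈ A) := by
  unfold sb
  simp

theorem sb_eq_iff {A B : Finset α} : sb A = sb B ↔ B = A ∨ B = Aᶜ := by
  constructor
  · intro h
    have h1 : ∀ x y, (x ∈ A ↔ y ∈ A) ↔ (x ∈ B ↔ y ∈ B) := by
      intro x y
      have h2 := Finset.ext_iff.1 h (x, y)
      rw [mem_sb, mem_sb] at h2
      exact h2
    by_cases h3 : ∃ x, (x ∈ A ↔ x ∈ B)
    · obtain ⟨x, hx⟩ := h3
      left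
      ext y
      have := h1 x y
      tauto
    · push Not at h3
      right
      ext y
      rw [Finset.mem_compl]
      have := h3 y
      tauto
  · rintro (rfl | rfl)
    · rfl
    · ext p
      rw [mem_sb, mem_sb, Finset.mem_compl, Finset.mem_compl]
      tauto

/-- the diagonal action on the pairs -/
def dg (g : Equiv.Perm α) : Equiv.Perm (α × α) := Equiv.prodCongr g g

theorem im_sb (g : Equiv.Perm α) (A : Finset α) : im (dg g) (sb A) = sb (im g A) := by
  rw [im_eq_iff]
  rintro ⟨x, y⟩
  rw [mem_sb, mem_sb]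
  change (g x ∈ im g A ↔ g y ∈ im g A) ↔ (x ∈ A ↔ y ∈ A)
  rw [mem_im, mem_im]

/-- the number of the invariant partitions into two blocks of `m` points -/
def pk (g : Equiv.Perm α) (m : ℕ) : ℕ :=
  (((univ.filter (fun A : Finset α => A.card = m)).image sb).filter
    (fun R => im (dg g) R = R)).card

theorem two_pk (g : Equiv.Perm α) {m : ℕ} (hm : Fintype.card α = 2 * m) (hm0 : 0 < m) :
    2 * pk g m = sk g m + tk g := by
  classical
  have hne : ∀ A : Finset α, A ≠ Aᶜ := by
    intro A h
    have h1 : Nonempty α := Fintype.card_pos_iff.1 (by omega)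
    obtain ⟨x⟩ := h1
    have h2 := Finset.ext_iff.1 h x
    rw [Finset.mem_compl] at h2
    tauto
  set T := univ.filter (fun A : Finset α => A.card = m ∧ (im g A = A ∨ im g A = Aᶜ)) with hT
  have h1 : T.card = sk g m + tk g := by
    unfold sk tk
    rw [← Finset.card_union_of_disjoint]
    · congr 1
      ext A
      simp only [hT, Finset.mem_union, Finset.mem_filter, Finset.mem_univ, true_and]
      constructor
      · rintro ⟨h, h' | h'⟩
        · exact Or.inl ⟨h, h'⟩
        · exact Or.inr h'
      · rintro (⟨h, h'⟩ | h')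
        · exact ⟨h, Or.inl h'⟩
        · refine ⟨?_, Or.inr h'⟩
          have h2 := card_im g A
          rw [h', Finset.card_compl, hm] at h2
          have h3 := Finset.card_le_univ A
          omega
    · rw [Finset.disjoint_left]
      intro A h h'
      have h2 := (Finset.mem_filter.1 h).2.2
      have h3 := (Finset.mem_filter.1 h').2
      exact hne A (h2.symm.trans h3)
  have h2 : ((univ.filter (fun A : Finset α => A.card = m)).image sb).filter
      (fun R => im (dg g) R = R) = T.image sb := by
    ext R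
    simp only [hT, Finset.mem_filter, Finset.mem_image, Finset.mem_univ, true_and]
    constructor
    · rintro ⟨⟨A, hA, rfl⟩, h⟩
      rw [im_sb] at h
      refine ⟨A, ⟨hA, ?_⟩, rfl⟩
      exact sb_eq_iff.1 h.symm
    · rintro ⟨A, ⟨hA, h⟩, rfl⟩
      refine ⟨⟨A, hA, rfl⟩, ?_⟩
      rw [im_sb]
      exact (sb_eq_iff.2 h).symm
  rw [pk, h2, ← h1]
  rw [Finset.card_eq_sum_card_image sb T]
  rw [Finset.sum_const_nat (m := 2), mul_comm]
  intro R hR
  obtain ⟨A, hA, rfl⟩ := Finset.mem_image.1 hR
  have h3 : (T.filter (fun B => sb B = sb A)) = {A, Aᶜ} := by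
    ext B
    rw [Finset.mem_filter, Finset.mem_insert, Finset.mem_singleton]
    constructor
    · rintro ⟨-, h⟩
      exact sb_eq_iff.1 h.symm
    · intro h
      refine ⟨?_, (sb_eq_iff.2 h).symm⟩
      rcases h with rfl | rfl
      · exact hA
      · have hA' := (Finset.mem_filter.1 hA).2
        refine Finset.mem_filter.2 ⟨mem_univ _, ?_, ?_⟩
        · rw [Finset.card_compl, hA'.1, hm]
          omega
        · rw [im_compl]
          rcases hA'.2 with h | h
          · left; rw [h]
          · right; rw [h]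
  rw [h3, Finset.card_pair (hne A)]

/-- **The identity.** -/
theorem identity (g : Equiv.Perm α) {m : ℕ} (hm : Fintype.card α = 2 * m) (hodd : Odd m) :
    (pk g m : ℤ) + ∑ k ∈ Finset.Ico 1 m, (-1 : ℤ) ^ (k + 1) * (sk g k : ℤ) = 1 := by
  have hm0 : 0 < m := hodd.pos
  have h1 := two_pk g hm hm0
  have h2 := alt_sum' g
  rw [hm] at h2
  -- split the sum
  have h3 : ∑ k ∈ range (2 * m + 1), (-1 : ℤ) ^ k * (sk g k : ℤ) =
      2 * ∑ k ∈ range m, (-1 : ℤ) ^ k * (sk g k : ℤ) - sk g m := by
    have h4 : 2 * m + 1 = m + (m + 1) := by ring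
    rw [h4, Finset.sum_range_add, Finset.sum_range_succ']
    have h5 : ∑ k ∈ range m, (-1 : ℤ) ^ (m + (k + 1)) * (sk g (m + (k + 1)) : ℤ) =
        ∑ k ∈ range m, (-1 : ℤ) ^ k * (sk g k : ℤ) := by
      rw [← Finset.sum_range_reflect]
      refine Finset.sum_congr rfl fun k hk => ?_
      rw [Finset.mem_range] at hk
      have h6 : m + (m - 1 - k + 1) = 2 * m - k := by omega
      have h7 : sk g (2 * m - k) = sk g k := by
        rw [← hm]
        exact sk_symm g (by omega)
      have h8 : (-1 : ℤ) ^ (2 * m - k) = (-1) ^ k := by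
        have h9 : (-1 : ℤ) ^ (2 * m - k) * (-1) ^ k = 1 := by
          rw [← pow_add, Nat.sub_add_cancel (by omega), pow_mul]
          norm_num
        rcases neg_one_pow_eq_or ℤ k with h | h
        · rw [h] at h9 ⊢
          linarith
        · rw [h] at h9 ⊢
          linarith
      rw [h6, h7, h8]
    rw [h5, add_zero, hodd.neg_one_pow]
    ring
  rw [h3] at h2
  have h4 : ∑ k ∈ range m, (-1 : ℤ) ^ k * (sk g k : ℤ) =
      1 - ∑ k ∈ Finset.Ico 1 m, (-1 : ℤ) ^ (k + 1) * (sk g k : ℤ) := by
    rw [Finset.range_eq_Ico, Finset.sum_eq_sum_Ico_succ_bot hm0, sk_zero]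
    simp only [pow_zero, Nat.cast_one, mul_one, zero_add]
    rw [sub_eq_add_neg, ← Finset.sum_neg_distrib]
    congr 1
    refine Finset.sum_congr rfl fun k _ => ?_
    rw [pow_succ]
    ring
  have h5 : (2 : ℤ) * pk g m = sk g m + tk g := by exact_mod_cast h1
  rw [h4] at h2
  linarith

end

end Pool.Agent.H67.PF
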