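import Pool.Agent.H67.PF.Frob

/-! Extensions with symmetric Galois group. -/

set_option autoImplicit false
set_option linter.unusedSectionVars false

namespace Pool.Agent.H67.PF

open NumberField IsDedekindDomain Polynomial Pool.Agent.H46.SP
open scoped Pointwise

theorem exists_prime_above (K : Type) [Field K] [NumberField K] {l : ℕ} (hl : l.Prime) :
    ∃ u : HeightOneSpectrum (𝓞 K), ((l : ℕ) : 𝓞 K) ∈ u.asIdeal := by
  have hsp : (Ideal.span {(l : ℤ)}).IsPrime :=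
    (Ideal.span_singleton_prime (by exact_mod_cast hl.ne_zero)).2 (Nat.prime_iff_prime_int.1 hl)
  obtain ⟨P, -, hP, hPl⟩ := Ideal.exists_ideal_over_prime_of_isIntegral (S := 𝓞 K)
    (Ideal.span {(l : ℤ)}) ⊥ (by
      rw [← RingHom.ker_eq_comap_bot, (RingHom.injective_iff_ker_eq_bot _).1
        (FaithfulSMul.algebraMap_injective ℤ (𝓞 K))]
      exact bot_le)
  have hlP : (l : 𝓞 K) ∈ P := by
    have h2 : (l : ℤ) ∈ Ideal.comap (algebraMap ℤ (𝓞 K)) P := by
      rw [hPl]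
      exact Ideal.mem_span_singleton_self _
    have h3 : algebraMap ℤ (𝓞 K) (l : ℤ) ∈ P := h2
    rwa [map_natCast] at h3
  have hP0 : P ≠ ⊥ := by
    rintro rfl
    rw [Ideal.mem_bot] at hlP
    exact hl.ne_zero (by exact_mod_cast hlP)
  exact ⟨⟨P, hP, hP0⟩, hlP⟩

theorem not_mem_of_lt (K : Type) [Field K] [NumberField K] {l : ℕ} (hl : l.Prime)
    (u : HeightOneSpectrum (𝓞 K)) (h : Nat.card (𝓞 K ⧸ u.asIdeal) < l) :
    ((l : ℕ) : 𝓞 K) ∉ u.asIdeal := by
  intro hlP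
  have h2 : 0 < Nat.card (𝓞 K ⧸ u.asIdeal) := Nat.card_pos
  have h3 : Nat.Coprime (Nat.card (𝓞 K ⧸ u.asIdeal)) l := by
    rw [Nat.coprime_comm, Nat.Prime.coprime_iff_not_dvd hl]
    intro h'
    exact absurd (Nat.le_of_dvd h2 h') (not_le.2 h)
  have h4 : ((Nat.card (𝓞 K ⧸ u.asIdeal) : ℕ) : 𝓞 K) ∈ u.asIdeal := Ideal.absNorm_mem u.asIdeal
  have h5 : (Nat.card (𝓞 K ⧸ u.asIdeal) : ℤ) ∈ u.asIdeal.comap (Int.castRingHom (𝓞 K)) := by
    rw [Ideal.mem_comap, eq_intCast, Int.cast_natCast]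
    exact h4
  have h6 : (l : ℤ) ∈ u.asIdeal.comap (Int.castRingHom (𝓞 K)) := by
    rw [Ideal.mem_comap, eq_intCast, Int.cast_natCast]
    exact hlP
  have h7 : (1 : ℤ) ∈ u.asIdeal.comap (Int.castRingHom (𝓞 K)) := by
    obtain ⟨a, b, hab⟩ := Nat.Coprime.isCoprime h3
    rw [← hab]
    exact Ideal.add_mem _ (Ideal.mul_mem_left _ _ h5) (Ideal.mul_mem_left _ _ h6)
  rw [Ideal.mem_comap, map_one] at h7
  exact u.isPrime.ne_top ((Ideal.eq_top_iff_one _).2 h7)

/-- there are infinitely many primes -/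
theorem exists_notMem (K : Type) [Field K] [NumberField K]
    (T : Finset (HeightOneSpectrum (𝓞 K))) : ∃ u : HeightOneSpectrum (𝓞 K), u ∉ T := by
  have hB : ∃ B : ℕ, ∀ v ∈ T, Nat.card (𝓞 K ⧸ v.asIdeal) ≤ B :=
    ⟨T.sup (fun v => Nat.card (𝓞 K ⧸ v.asIdeal)), fun v hv =>
      Finset.le_sup (f := fun v : HeightOneSpectrum (𝓞 K) => Nat.card (𝓞 K ⧸ v.asIdeal)) hv⟩
  obtain ⟨B, hB⟩ := hB
  obtain ⟨l, hlB, hl⟩ := Nat.exists_infinite_primes (B + 1)
  obtain ⟨u, hu⟩ := exists_prime_above K hl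
  refine ⟨u, fun hmem => ?_⟩
  exact not_mem_of_lt K hl u (lt_of_le_of_lt (hB u hmem) hlB) hu

/-- the splitting field -/
theorem exists_Lf (K : Type) [Field K] [NumberField K] (f : (𝓞 K)[X]) (hm : f.Monic)
    (hi : Irreducible f) :
    ∃ (L : Type) (_ : Field L) (_ : NumberField L) (_ : Algebra K L), IsGalois K L ∧
      (f.map (algebraMap (𝓞 K) L)).Splits ∧
      (∀ β : Gal(L/K), (∀ b : 𝓞 L, aeval b f = 0 → β • b = b) → β = 1) ∧
      ∀ A : Subalgebra K L, (∀ b : L, aeval b f = 0 → b ∈ A) → A = ⊤ := by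
  classical
  set F := f.map (algebraMap (𝓞 K) K) with hF
  have h1 : Irreducible F := (hm.irreducible_iff_irreducible_map_fraction_map).1 hi
  let L := F.SplittingField
  have hN : NumberField L := NumberField.of_module_finite K L
  have hG : IsGalois K L := IsGalois.of_separable_splitting_field h1.separable
  have hs := IsSplittingField.splits L F
  have t0 : IsScalarTower (𝓞 K) K L := inferInstance
  have hmap : f.map (algebraMap (𝓞 K) L) = F.map (algebraMap K L) := by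
    change f.map (algebraMap (𝓞 K) L) = (f.map (algebraMap (𝓞 K) K)).map (algebraMap K L)
    rw [Polynomial.map_map, ← IsScalarTower.algebraMap_eq]
  have hgen : ∀ A : Subalgebra K L, (∀ b : L, aeval b f = 0 → b ∈ A) → A = ⊤ := by
    intro A hA
    rw [eq_top_iff, ← IsSplittingField.adjoin_rootSet L F]
    refine Algebra.adjoin_le ?_
    intro b hb
    rw [mem_rootSet] at hb
    apply hA
    rw [← aeval_map_algebraMap K]
    exact hb.2
  refine ⟨L, inferInstance, hN, inferInstance, hG, by rw [hmap]; exact hs, fun β hβ => ?_, hgen⟩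
  have h3 : AlgHom.equalizer (β : L →ₐ[K] L) (AlgHom.id K L) = ⊤ := by
    apply hgen
    intro b h3
    obtain ⟨b', h7, h8⟩ := exists_int hm h3
    have h9 := congrArg (algebraMap (𝓞 L) L) (hβ b' h8)
    have h10 : β (b' : L) = b' := h9
    rw [h7] at h10
    exact h10
  ext x
  have h4 : x ∈ AlgHom.equalizer (β : L →ₐ[K] L) (AlgHom.id K L) := by
    rw [h3]
    exact Algebra.mem_top
  exact h4

section
variable {K L : Type} [Field K] [NumberField K] [Field L] [NumberField L] [Algebra K L]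
  [IsGalois K L]

/-- the action on the roots -/
def rootAct (f : (𝓞 K)[X]) : Gal(L/K) →* Equiv.Perm {b : 𝓞 L // aeval b f = 0} where
  toFun g :=
    { toFun := fun b => ⟨g • b.1, aeval_smul g b.2⟩
      invFun := fun b => ⟨g⁻¹ • b.1, aeval_smul g⁻¹ b.2⟩
      left_inv := fun b => Subtype.ext (inv_smul_smul g b.1)
      right_inv := fun b => Subtype.ext (smul_inv_smul g b.1) }
  map_one' := by
    ext b
    exact congrArg _ (one_smul _ b.1)
  map_mul' g h := by
    ext b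
    exact congrArg _ (mul_smul g h b.1)

/-- the action on the roots, numbered by an equivalence -/
noncomputable def numAct {f : (𝓞 K)[X]} {n : ℕ} (e : {b : 𝓞 L // aeval b f = 0} ≃ Fin n) :
    Gal(L/K) →* Equiv.Perm (Fin n) :=
  (e.permCongrHom : _ →* _).comp (rootAct f)

theorem numAct_apply {f : (𝓞 K)[X]} {n : ℕ} (e : {b : 𝓞 L // aeval b f = 0} ≃ Fin n)
    (g : Gal(L/K)) (i : Fin n) :
    numAct e g i = e ⟨g • (e.symm i).1, aeval_smul g (e.symm i).2⟩ := rfl

theorem numAct_eq_iff {f : (𝓞 K)[X]} {n : ℕ} (e : {b : 𝓞 L // aeval b f = 0} ≃ Fin n)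
    (g : Gal(L/K)) (i j : Fin n) :
    numAct e g i = j ↔ g • (e.symm i).1 = (e.symm j).1 := by
  rw [numAct_apply, ← Equiv.eq_symm_apply, Subtype.ext_iff]

/-- the conditions on the polynomial -/
structure Full (f : (𝓞 K)[X]) (n : ℕ) (v1 v2 v3 : HeightOneSpectrum (𝓞 K)) : Prop where
  monic : f.Monic
  deg : f.natDegree = n
  irr : Irreducible (f.map (Ideal.Quotient.mk v1.asIdeal))
  root : IsRootMul (f.map (Ideal.Quotient.mk v2.asIdeal)) n
  swap : IsSwapKind (f.map (Ideal.Quotient.mk v3.asIdeal)) n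

omit [NumberField K] in
theorem full_surj [NumberField K] {f : (𝓞 K)[X]} {n : ℕ} (hn : Even n)
    {v1 v2 v3 : HeightOneSpectrum (𝓞 K)} (hf : Full f n v1 v2 v3) (hi : Irreducible f)
    (hs : (f.map (algebraMap (𝓞 K) L)).Splits) (e : {b : 𝓞 L // aeval b f = 0} ≃ Fin n) :
    Function.Surjective (numAct e) := by
  obtain ⟨w1, hw1⟩ := exists_above (L := L) v1
  obtain ⟨w2, hw2⟩ := exists_above (L := L) v2
  obtain ⟨w3, hw3⟩ := exists_above (L := L) v3
  have l1 : w1.asIdeal.LiesOver v1.asIdeal := ⟨hw1.symm⟩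
  have l2 : w2.asIdeal.LiesOver v2.asIdeal := ⟨hw2.symm⟩
  have l3 : w3.asIdeal.LiesOver v3.asIdeal := ⟨hw3.symm⟩
  obtain ⟨σ1, hσ1⟩ := exists_frob v1 w1 hw1
  obtain ⟨σ2, hσ2⟩ := exists_frob v2 w2 hw2
  obtain ⟨σ3, hσ3⟩ := exists_frob v3 w3 hw3
  -- the second prime
  have hsep2 := hf.root.separable
  obtain ⟨h, ih, mh, dh, dh2, eh⟩ := hf.root
  obtain ⟨r, hr, hrw⟩ := lift_root hf.monic hi hsep2 hs w2 0 (by rw [eh, map_mul, aeval_X, zero_mul])
  have hr' : r ∈ w2.asIdeal := Ideal.Quotient.eq_zero_iff_mem.1 hrw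
  have hother : ∀ b : 𝓞 L, aeval b f = 0 → b ≠ r → aeval (Ideal.Quotient.mk w2.asIdeal b) h = 0 := by
    intro b hb hbr
    have h1 := aeval_mk w2.asIdeal v2.asIdeal hb
    rw [eh, map_mul, aeval_X] at h1
    rcases mul_eq_zero.1 h1 with h2 | h2
    · exfalso
      exact hbr (root_eq_sep hsep2 w2 hw2 hb hr (h2.trans hrw.symm))
    · exact h2
  -- the third prime
  have hsep3 := hf.swap.sep
  obtain ⟨h2, h3, i2, m2, d2, i3, m3, d3, d3', e3⟩ := hf.swap
  have hspl := splits_residue hf.monic hi hsep3 hs w3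
  obtain ⟨ρ0, hρ0⟩ : ∃ ρ0 : 𝓞 L ⧸ w3.asIdeal, aeval ρ0 h2 = 0 := by
    rw [e3, Polynomial.map_mul, Polynomial.map_mul] at hspl
    have hne : (X.map (algebraMap (𝓞 K ⧸ v3.asIdeal) (𝓞 L ⧸ w3.asIdeal))) *
        ((h2.map (algebraMap (𝓞 K ⧸ v3.asIdeal) (𝓞 L ⧸ w3.asIdeal))) *
        (h3.map (algebraMap (𝓞 K ⧸ v3.asIdeal) (𝓞 L ⧸ w3.asIdeal)))) ≠ 0 :=
      ((monic_X.map _).mul ((m2.map _).mul (m3.map _))).ne_zero
    have h4 : (h2.map (algebraMap (𝓞 K ⧸ v3.asIdeal) (𝓞 L ⧸ w3.asIdeal))).Splits :=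
      hspl.of_dvd hne (Dvd.intro_left _ (by ring : (X.map _ * (h3.map _)) * (h2.map _) = _))
    obtain ⟨a, ha⟩ := h4.exists_eval_eq_zero (by
      rw [m2.degree_map, degree_eq_natDegree m2.ne_zero, d2]
      norm_num)
    rw [eval_map_algebraMap] at ha
    exact ⟨a, ha⟩
  obtain ⟨a, ha, haw⟩ := lift_root hf.monic hi hsep3 hs w3 ρ0 (by
    rw [e3, map_mul, map_mul, hρ0]
    ring)
  have ha2 : aeval (Ideal.Quotient.mk w3.asIdeal a) h2 = 0 := by rw [haw]; exact hρ0
  have hodd : Odd h3.natDegree := by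
    rw [Nat.odd_iff]
    rw [Nat.even_iff] at hn
    omega
  set N := h3.natDegree with hN
  have hfix2 : ∀ b : 𝓞 L, aeval b f = 0 → aeval (Ideal.Quotient.mk w3.asIdeal b) h2 = 0 →
      (σ3 ^ 2) • b = b := by
    intro b hb hb'
    have := hσ3.fix hw3 hsep3 i2 hb hb'
    rwa [d2] at this
  have hodd2 : ∀ b : 𝓞 L, aeval b f = 0 → aeval (Ideal.Quotient.mk w3.asIdeal b) h2 = 0 →
      ∀ i : ℕ, (σ3 ^ i) • b = b ∨ (σ3 ^ i) • b = σ3 • b := by
    intro b hb hb' i
    have h5 : ∀ j : ℕ, (σ3 ^ (2 * j)) • b = b := by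
      intro j
      induction j with
      | zero => simp
      | succ j ih => rw [mul_add, mul_one, pow_add, mul_smul, hfix2 b hb hb', ih]
    rcases Nat.even_or_odd' i with ⟨j, rfl | rfl⟩
    · left
      exact h5 j
    · right
      rw [pow_succ', mul_smul, h5]
  have hoddN : ∀ b : 𝓞 L, aeval b f = 0 → aeval (Ideal.Quotient.mk w3.asIdeal b) h2 = 0 →
      (σ3 ^ N) • b = σ3 • b := by
    intro b hb hb'
    obtain ⟨j, hj⟩ := hodd
    have h5 : ∀ j : ℕ, (σ3 ^ (2 * j)) • b = b := by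
      intro j
      induction j with
      | zero => simp
      | succ j ih => rw [mul_add, mul_one, pow_add, mul_smul, hfix2 b hb hb', ih]
    rw [hj, pow_succ', mul_smul, h5]
  have hane : σ3 • a ≠ a := by
    intro h5
    have := hσ3.natDegree i2 ha2 h5
    omega
  -- the numbers of the roots
  refine surj_of (numAct e) σ1 σ2 (σ3 ^ N) (e ⟨r, hr⟩) (e ⟨a, ha⟩) (e ⟨σ3 • a, aeval_smul σ3 ha⟩)
    ?_ ?_ ?_ ?_ ?_
  · intro x y
    have hx := aeval_mk w1.asIdeal v1.asIdeal (e.symm x).2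
    have hy := aeval_mk w1.asIdeal v1.asIdeal (e.symm y).2
    obtain ⟨i, hi'⟩ := hσ1.trans hw1 (sep_irred hf.irr) hf.irr (e.symm x).2 (e.symm y).2 hx hy
    exact ⟨i, (numAct_eq_iff e _ _ _).2 hi'⟩
  · rw [numAct_eq_iff, Equiv.symm_apply_apply]
    refine root_eq_sep hsep2 w2 hw2 (aeval_smul _ hr) hr ?_
    rw [hσ2, hrw, zero_pow Nat.card_pos.ne']
  · intro x y hx hy
    have hx' : (e.symm x).1 ≠ r := by
      intro h5
      apply hx
      rw [← Equiv.symm_apply_eq]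
      exact Subtype.ext h5
    have hy' : (e.symm y).1 ≠ r := by
      intro h5
      apply hy
      rw [← Equiv.symm_apply_eq]
      exact Subtype.ext h5
    obtain ⟨i, hi'⟩ := hσ2.trans hw2 hsep2 ih (e.symm x).2 (e.symm y).2
      (hother _ (e.symm x).2 hx') (hother _ (e.symm y).2 hy')
    exact ⟨i, (numAct_eq_iff e _ _ _).2 hi'⟩
  · intro h5
    have h6 := congrArg (fun z => z.1) (e.injective h5)
    exact hane h6.symm
  · ext x
    congr 1
    rw [numAct_eq_iff]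
    obtain ⟨b, rfl⟩ := e.surjective x
    rw [Equiv.symm_apply_apply]
    have hb := aeval_mk w3.asIdeal v3.asIdeal b.2
    rw [e3, map_mul, map_mul, aeval_X] at hb
    by_cases hba : b = ⟨a, ha⟩
    · subst hba
      rw [Equiv.swap_apply_left, Equiv.symm_apply_apply]
      exact hoddN a ha ha2
    by_cases hba' : b = ⟨σ3 • a, aeval_smul σ3 ha⟩
    · subst hba'
      rw [Equiv.swap_apply_right, Equiv.symm_apply_apply]
      change (σ3 ^ N) • σ3 • a = a
      rw [← mul_smul, ← pow_succ, pow_succ', mul_smul, hoddN a ha ha2, ← mul_smul, ← pow_two]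
      exact hfix2 a ha ha2
    rw [Equiv.swap_apply_of_ne_of_ne (fun h5 => hba (e.injective h5))
      (fun h5 => hba' (e.injective h5)), Equiv.symm_apply_apply]
    rcases mul_eq_zero.1 hb with h5 | h5
    · refine root_eq_sep hsep3 w3 hw3 (aeval_smul _ b.2) b.2 ?_
      rw [hσ3.pow, h5, zero_pow (pow_pos Nat.card_pos N).ne']
    · rcases mul_eq_zero.1 h5 with h6 | h6
      · exfalso
        obtain ⟨i, hi'⟩ := hσ3.trans hw3 hsep3 i2 ha b.2 ha2 h6
        rcases hodd2 a ha ha2 i with h7 | h7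
        · exact hba (Subtype.ext (hi'.symm.trans h7))
        · exact hba' (Subtype.ext (hi'.symm.trans h7))
      · exact hσ3.fix hw3 hsep3 i3 b.2 h6

end

end Pool.Agent.H67.PF
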