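import Pool.Agent.H67.PF.Act

/-! Doubly transitive groups which contain a swap. -/

set_option autoImplicit false
set_option linter.unusedSectionVars false

namespace Pool.Agent.H67.PF

section
variable {α : Type} [Fintype α] [DecidableEq α] {G : Type} [Group G] (ρ : G →* Equiv.Perm α)

theorem surj_of (σ1 σ2 σ3 : G) (r a b : α) (h1 : ∀ x y, ∃ i : ℕ, ρ (σ1 ^ i) x = y)
    (h2 : ρ σ2 r = r) (h3 : ∀ x y, x ≠ r → y ≠ r → ∃ i : ℕ, ρ (σ2 ^ i) x = y) (hab : a ≠ b)
    (h4 : ρ σ3 = Equiv.swap a b) : Function.Surjective ρ := by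
  have hfix : ∀ i : ℕ, ρ (σ2 ^ i) r = r := by
    intro i
    rw [map_pow]
    exact Function.IsFixedPt.perm_pow h2 i
  have h5 : ρ.range = ⊤ := by
    apply top_of_swaps
    intro x y hxy
    obtain ⟨i, hi⟩ := h1 a r
    obtain ⟨j, hj⟩ := h1 x r
    have hb : ρ (σ1 ^ i) b ≠ r := by
      intro h
      exact hab ((ρ (σ1 ^ i)).injective (hi.trans h.symm))
    have hy : ρ (σ1 ^ j) y ≠ r := by
      intro h
      exact hxy ((ρ (σ1 ^ j)).injective (hj.trans h.symm))
    obtain ⟨k, hk⟩ := h3 _ _ hb hy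
    let h : G := (σ1 ^ j)⁻¹ * σ2 ^ k * σ1 ^ i
    have ha' : ρ h a = x := by
      simp only [h, map_mul, map_inv, Equiv.Perm.mul_apply]
      rw [Equiv.Perm.inv_eq_iff_eq, hj, hi, hfix]
    have hb' : ρ h b = y := by
      simp only [h, map_mul, map_inv, Equiv.Perm.mul_apply]
      rw [Equiv.Perm.inv_eq_iff_eq, hk]
    refine ⟨h * σ3 * h⁻¹, ?_⟩
    rw [map_mul, map_mul, map_inv, h4, ← ha', ← hb']
    exact (Equiv.swap_apply_apply (ρ h) a b).symm
  exact MonoidHom.range_eq_top.1 h5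

end

end Pool.Agent.H67.PF
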