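import Pool.Agent.H46.SP.ExistM
import Pool.Agent.H67.PF.Surj

/-! Frobenius elements and the roots of a polynomial. -/

set_option autoImplicit false
set_option linter.unusedSectionVars false

namespace Pool.Agent.H67.PF

open NumberField IsDedekindDomain Polynomial Pool.Agent.H46.SP
open scoped Pointwise

section
variable {k κ : Type} [Field k] [Finite k] [Field κ] [Finite κ] [Algebra k κ]

theorem exists_pow {h : k[X]} (hi : Irreducible h) {r r' : κ} (hr : aeval r h = 0)
    (hr' : aeval r' h = 0) : ∃ i : ℕ, r ^ (Nat.card k ^ i) = r' := by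
  have h1 : minpoly k r = minpoly k r' := by
    rw [← minpoly.eq_of_irreducible hi hr, ← minpoly.eq_of_irreducible hi hr']
  obtain ⟨σ, hσ⟩ := Normal.minpoly_eq_iff_mem_orbit κ |>.1 h1.symm
  have h2 : σ r = r' := hσ
  have := Fintype.ofFinite k
  obtain ⟨n, hn⟩ := (FiniteField.bijective_frobeniusAlgEquivOfAlgebraic_pow k κ).2 σ
  refine ⟨n.1, ?_⟩
  have h3 : FiniteField.frobeniusAlgEquivOfAlgebraic k κ ^ n.1 = σ := hn
  rw [← h2, ← h3, AlgEquiv.coe_pow, FiniteField.coe_frobeniusAlgEquivOfAlgebraic_iterate,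
    Fintype.card_eq_nat_card]

theorem pow_natDegree {h : k[X]} (hi : Irreducible h) {r : κ} (hr : aeval r h = 0) :
    r ^ (Nat.card k ^ h.natDegree) = r := by
  let l := IntermediateField.adjoin k {r}
  have h2 : Nat.card l = Nat.card k ^ h.natDegree := by
    rw [Module.natCard_eq_pow_finrank (K := k), IntermediateField.adjoin.finrank (int_el r),
      natDegree_minpoly hi hr]
  have h3 : Finite l := inferInstance
  have := Fintype.ofFinite l
  have h4 := FiniteField.pow_card (⟨r, IntermediateField.mem_adjoin_simple_self k r⟩ : l)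
  rw [Fintype.card_eq_nat_card, h2] at h4
  exact congrArg (fun z : l => z.1) h4

theorem natDegree_of_fixed {h : k[X]} (hi : Irreducible h) {r : κ} (hr : aeval r h = 0)
    (hf : r ^ Nat.card k = r) : h.natDegree = 1 := by
  have := Fintype.ofFinite k
  have h1 : r ∈ (⊥ : IntermediateField k κ) := by
    rw [IsGalois.mem_bot_iff_fixed]
    intro σ
    obtain ⟨n, hn⟩ := (FiniteField.bijective_frobeniusAlgEquivOfAlgebraic_pow k κ).2 σ
    have h3 : FiniteField.frobeniusAlgEquivOfAlgebraic k κ ^ n.1 = σ := hn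
    rw [← h3, AlgEquiv.coe_pow]
    apply Function.IsFixedPt.iterate
    change r ^ Fintype.card k = r
    rw [Fintype.card_eq_nat_card]
    exact hf
  rw [← natDegree_minpoly hi hr, ← IntermediateField.adjoin.finrank (int_el r)]
  rw [IntermediateField.adjoin_simple_eq_bot_iff.2 h1]
  exact IntermediateField.finrank_bot

/-- irreducible polynomials of different degrees are coprime -/
theorem coprime_of_ne {a b : k[X]} (ha : Irreducible a) (hb : Irreducible b)
    (hne : a.natDegree ≠ b.natDegree) : IsCoprime a b := by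
  rcases EuclideanDomain.dvd_or_coprime a b ha with h | h
  swap
  · exact h
  · exfalso
    obtain ⟨c, hc⟩ := h
    rcases hb.isUnit_or_isUnit hc with h1 | h1
    · exact ha.not_isUnit h1
    · apply hne
      rw [hc, natDegree_mul ha.ne_zero h1.ne_zero, natDegree_eq_zero_of_isUnit h1, add_zero]

theorem sep_irred {a : k[X]} (ha : Irreducible a) : a.Separable :=
  PerfectField.separable_of_irreducible ha

/-- the residue polynomials of the third kind -/
def IsSwapKind (f : k[X]) (n : ℕ) : Prop :=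
  ∃ h2 h3 : k[X], Irreducible h2 ∧ h2.Monic ∧ h2.natDegree = 2 ∧ Irreducible h3 ∧ h3.Monic ∧
    h3.natDegree + 3 = n ∧ 3 ≤ h3.natDegree ∧ f = X * (h2 * h3)

theorem IsSwapKind.sep {f : k[X]} {n : ℕ} (hf : IsSwapKind f n) : f.Separable := by
  obtain ⟨h2, h3, i2, m2, d2, i3, m3, d3, d3', rfl⟩ := hf
  have c1 : IsCoprime h2 h3 := coprime_of_ne i2 i3 (by omega)
  have c2 : IsCoprime (X : k[X]) h2 := coprime_of_ne irreducible_X i2 (by rw [natDegree_X]; omega)
  have c3 : IsCoprime (X : k[X]) h3 := coprime_of_ne irreducible_X i3 (by rw [natDegree_X]; omega)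
  exact Separable.mul separable_X (Separable.mul (sep_irred i2) (sep_irred i3) c1)
    (IsCoprime.mul_right c2 c3)

end

theorem exists_swapKind (k : Type) [Field k] [Finite k] {n : ℕ} (hn : 6 ≤ n) :
    ∃ f : k[X], f.Monic ∧ f.natDegree = n ∧ IsSwapKind f n := by
  obtain ⟨h2, m2, i2, d2⟩ := exists_irred k (d := 2) (by omega)
  obtain ⟨h3, m3, i3, d3⟩ := exists_irred k (d := n - 3) (by omega)
  refine ⟨X * (h2 * h3), monic_X.mul (m2.mul m3), ?_, h2, h3, i2, m2, d2, i3, m3, by omega,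
    by omega, rfl⟩
  rw [natDegree_mul X_ne_zero (m2.mul m3).ne_zero, natDegree_mul m2.ne_zero m3.ne_zero,
    natDegree_X]
  omega

section
variable {K L : Type} [Field K] [NumberField K] [Field L] [NumberField L] [Algebra K L]

/-- the roots reduce onto the roots -/
theorem lift_root {v : HeightOneSpectrum (𝓞 K)} {f : (𝓞 K)[X]} (hm : f.Monic)
    (hi : Irreducible f) (hsep : (f.map (Ideal.Quotient.mk v.asIdeal)).Separable)
    (hs : (f.map (algebraMap (𝓞 K) L)).Splits) (w : HeightOneSpectrum (𝓞 L))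
    [hlies : w.asIdeal.LiesOver v.asIdeal] (ρ : 𝓞 L ⧸ w.asIdeal)
    (hρ : aeval ρ (f.map (Ideal.Quotient.mk v.asIdeal)) = 0) :
    ∃ b : 𝓞 L, aeval b f = 0 ∧ Ideal.Quotient.mk w.asIdeal b = ρ := by
  classical
  have hw : w.asIdeal.under (𝓞 K) = v.asIdeal := hlies.over.symm
  by_contra hne
  push Not at hne
  have hcard := card_roots hm hi hs
  have hn : f.natDegree ≠ 0 := by
    intro h0
    rw [Polynomial.eq_one_of_monic_natDegree_zero hm h0] at hi
    exact hi.not_isUnit isUnit_one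
  have hfin : Finite {b : 𝓞 L // aeval b f = 0} := Nat.finite_of_card_ne_zero (by rw [hcard]; exact hn)
  let _ := Fintype.ofFinite {b : 𝓞 L // aeval b f = 0}
  set P := (f.map (Ideal.Quotient.mk v.asIdeal)).map
    (algebraMap (𝓞 K ⧸ v.asIdeal) (𝓞 L ⧸ w.asIdeal)) with hP
  have hPm : P.Monic := (hm.map _).map _
  have hPd : P.natDegree = f.natDegree := by
    rw [(hm.map _).natDegree_map, hm.natDegree_map]
  have hmem : ∀ r : 𝓞 L ⧸ w.asIdeal, aeval r (f.map (Ideal.Quotient.mk v.asIdeal)) = 0 →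
      r ∈ P.roots.toFinset := by
    intro r hr
    rw [Multiset.mem_toFinset, mem_roots hPm.ne_zero, IsRoot.def, eval_map_algebraMap]
    exact hr
  let S : Finset (𝓞 L ⧸ w.asIdeal) := Finset.univ.image
    (fun b : {b : 𝓞 L // aeval b f = 0} => Ideal.Quotient.mk w.asIdeal b.1)
  have hS : S.card = f.natDegree := by
    rw [Finset.card_image_of_injective, Finset.card_univ, Fintype.card_eq_nat_card, hcard]
    intro x y hxy
    exact Subtype.ext (root_eq_sep hsep w hw x.2 y.2 hxy)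
  have h0S : ρ ∉ S := by
    intro h
    obtain ⟨b, -, hb⟩ := Finset.mem_image.1 h
    exact hne b.1 b.2 hb
  have hsub : insert ρ S ⊆ P.roots.toFinset := by
    intro r hr
    rcases Finset.mem_insert.1 hr with rfl | hr
    · exact hmem _ hρ
    · obtain ⟨b, -, rfl⟩ := Finset.mem_image.1 hr
      exact hmem _ (aeval_mk w.asIdeal v.asIdeal b.2)
  have h1 := Finset.card_le_card hsub
  rw [Finset.card_insert_of_notMem h0S, hS] at h1
  have h2 := (Multiset.toFinset_card_le P.roots).trans (card_roots' P)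
  omega

/-- the residue polynomial splits -/
theorem splits_residue {v : HeightOneSpectrum (𝓞 K)} {f : (𝓞 K)[X]} (hm : f.Monic)
    (hi : Irreducible f) (hsep : (f.map (Ideal.Quotient.mk v.asIdeal)).Separable)
    (hs : (f.map (algebraMap (𝓞 K) L)).Splits) (w : HeightOneSpectrum (𝓞 L))
    [hlies : w.asIdeal.LiesOver v.asIdeal] :
    ((f.map (Ideal.Quotient.mk v.asIdeal)).map
      (algebraMap (𝓞 K ⧸ v.asIdeal) (𝓞 L ⧸ w.asIdeal))).Splits := by
  classical
  have hw : w.asIdeal.under (𝓞 K) = v.asIdeal := hlies.over.symm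
  have hcard := card_roots hm hi hs
  have hn : f.natDegree ≠ 0 := by
    intro h0
    rw [Polynomial.eq_one_of_monic_natDegree_zero hm h0] at hi
    exact hi.not_isUnit isUnit_one
  have hfin : Finite {b : 𝓞 L // aeval b f = 0} := Nat.finite_of_card_ne_zero (by rw [hcard]; exact hn)
  let _ := Fintype.ofFinite {b : 𝓞 L // aeval b f = 0}
  set P := (f.map (Ideal.Quotient.mk v.asIdeal)).map
    (algebraMap (𝓞 K ⧸ v.asIdeal) (𝓞 L ⧸ w.asIdeal)) with hP
  have hPm : P.Monic := (hm.map _).map _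
  have hPd : P.natDegree = f.natDegree := by
    rw [(hm.map _).natDegree_map, hm.natDegree_map]
  rw [splits_iff_card_roots]
  apply le_antisymm (card_roots' P)
  let S : Finset (𝓞 L ⧸ w.asIdeal) := Finset.univ.image
    (fun b : {b : 𝓞 L // aeval b f = 0} => Ideal.Quotient.mk w.asIdeal b.1)
  have hS : S.card = f.natDegree := by
    rw [Finset.card_image_of_injective, Finset.card_univ, Fintype.card_eq_nat_card, hcard]
    intro x y hxy
    exact Subtype.ext (root_eq_sep hsep w hw x.2 y.2 hxy)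
  rw [hPd, ← hS]
  refine le_trans (Finset.card_le_card ?_) (Multiset.toFinset_card_le P.roots)
  intro r hr
  obtain ⟨b, -, rfl⟩ := Finset.mem_image.1 hr
  rw [Multiset.mem_toFinset, mem_roots hPm.ne_zero, IsRoot.def, eval_map_algebraMap]
  exact aeval_mk w.asIdeal v.asIdeal b.2

variable [IsGalois K L]

/-- Frobenius elements -/
def IsFrob (v : HeightOneSpectrum (𝓞 K)) (w : HeightOneSpectrum (𝓞 L)) (σ : Gal(L/K)) : Prop :=
  ∀ x : 𝓞 L, Ideal.Quotient.mk w.asIdeal (σ • x) =
    Ideal.Quotient.mk w.asIdeal x ^ Nat.card (𝓞 K ⧸ v.asIdeal)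

theorem exists_frob (v : HeightOneSpectrum (𝓞 K)) (w : HeightOneSpectrum (𝓞 L))
    (hw : w.asIdeal.under (𝓞 K) = v.asIdeal) : ∃ σ : Gal(L/K), IsFrob v w σ := by
  obtain ⟨σ, hσ⟩ := IsArithFrobAt.exists_of_isInvariant (𝓞 K) Gal(L/K) w.asIdeal
  refine ⟨σ, fun x => ?_⟩
  rw [← map_pow, Ideal.Quotient.eq]
  have h1 := hσ x
  rw [hw] at h1
  exact h1

theorem IsFrob.pow {v : HeightOneSpectrum (𝓞 K)} {w : HeightOneSpectrum (𝓞 L)} {σ : Gal(L/K)}
    (hσ : IsFrob v w σ) (i : ℕ) (x : 𝓞 L) : Ideal.Quotient.mk w.asIdeal ((σ ^ i) • x) =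
      Ideal.Quotient.mk w.asIdeal x ^ (Nat.card (𝓞 K ⧸ v.asIdeal) ^ i) := by
  induction i with
  | zero => rw [pow_zero, one_smul, pow_zero, pow_one]
  | succ i ih => rw [pow_succ', mul_smul, hσ, ih, ← pow_mul, ← pow_succ]

theorem IsFrob.trans {v : HeightOneSpectrum (𝓞 K)} {w : HeightOneSpectrum (𝓞 L)} {σ : Gal(L/K)}
    (hσ : IsFrob v w σ) (hw : w.asIdeal.under (𝓞 K) = v.asIdeal)
    [hlies : w.asIdeal.LiesOver v.asIdeal] {f : (𝓞 K)[X]}
    (hsep : (f.map (Ideal.Quotient.mk v.asIdeal)).Separable) {h : (𝓞 K ⧸ v.asIdeal)[X]}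
    (hi : Irreducible h) {α β : 𝓞 L} (hα : aeval α f = 0) (hβ : aeval β f = 0)
    (hα' : aeval (Ideal.Quotient.mk w.asIdeal α) h = 0)
    (hβ' : aeval (Ideal.Quotient.mk w.asIdeal β) h = 0) : ∃ i : ℕ, (σ ^ i) • α = β := by
  obtain ⟨i, hi⟩ := exists_pow hi hα' hβ'
  refine ⟨i, root_eq_sep hsep w hw (aeval_smul _ hα) hβ ?_⟩
  rw [hσ.pow, hi]

theorem IsFrob.fix {v : HeightOneSpectrum (𝓞 K)} {w : HeightOneSpectrum (𝓞 L)} {σ : Gal(L/K)}
    (hσ : IsFrob v w σ) (hw : w.asIdeal.under (𝓞 K) = v.asIdeal)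
    [hlies : w.asIdeal.LiesOver v.asIdeal] {f : (𝓞 K)[X]}
    (hsep : (f.map (Ideal.Quotient.mk v.asIdeal)).Separable) {h : (𝓞 K ⧸ v.asIdeal)[X]}
    (hi : Irreducible h) {α : 𝓞 L} (hα : aeval α f = 0)
    (hα' : aeval (Ideal.Quotient.mk w.asIdeal α) h = 0) : (σ ^ h.natDegree) • α = α := by
  refine root_eq_sep hsep w hw (aeval_smul _ hα) hα ?_
  rw [hσ.pow, pow_natDegree hi hα']

theorem IsFrob.natDegree {v : HeightOneSpectrum (𝓞 K)} {w : HeightOneSpectrum (𝓞 L)}
    {σ : Gal(L/K)} (hσ : IsFrob v w σ)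
    [hlies : w.asIdeal.LiesOver v.asIdeal] {h : (𝓞 K ⧸ v.asIdeal)[X]}
    (hi : Irreducible h) {α : 𝓞 L} (hα' : aeval (Ideal.Quotient.mk w.asIdeal α) h = 0)
    (hfix : σ • α = α) : h.natDegree = 1 := by
  refine natDegree_of_fixed hi hα' ?_
  rw [← hσ, hfix]

end

end Pool.Agent.H67.PF
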