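import Pool.Agent.H67.PF.SplitF
import Pool.Agent.H46.SP.Main

/-! The relation between primitive fields. -/

set_option autoImplicit false
set_option linter.unusedSectionVars false

namespace Pool.Agent.H67.PF

open NumberField IsDedekindDomain Polynomial Pool.Agent.H46.SP
open scoped Pointwise
open Pool.Agent.R433.MD (emb fx fx_eq_emb)

/-- **Extensions with symmetric group in which given primes split completely.** -/
theorem exists_sym (K : Type) [Field K] [NumberField K] (S : Finset (HeightOneSpectrum (𝓞 K)))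
    {n : ℕ} (hn : Even n) (h6 : 6 ≤ n) :
    ∃ (L : Type) (_ : Field L) (_ : NumberField L) (_ : Algebra K L), IsGalois K L ∧
      (∀ v ∈ S, ∀ w : HeightOneSpectrum (𝓞 L), w.asIdeal.under (𝓞 K) = v.asIdeal →
        ∀ σ : Gal(L/K), σ • w.asIdeal = w.asIdeal → σ = 1) ∧
      (∀ ψ : L →+* ℂ, (∀ x : K, (ψ (algebraMap K L x)).im = 0) → ∀ y, (ψ y).im = 0) ∧
      ∃ ρ : Gal(L/K) →* Equiv.Perm (Fin n), Function.Bijective ρ := by
  classical
  obtain ⟨v1, hv1⟩ := exists_notMem K S
  obtain ⟨v2, hv2⟩ := exists_notMem K (insert v1 S)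
  obtain ⟨v3, hv3⟩ := exists_notMem K (insert v2 (insert v1 S))
  have h21 : v2 ≠ v1 := fun h => hv2 (h ▸ Finset.mem_insert_self _ _)
  have h32 : v3 ≠ v2 := fun h => hv3 (h ▸ Finset.mem_insert_self _ _)
  have h31 : v3 ≠ v1 := fun h => hv3 (h ▸ Finset.mem_insert_of_mem (Finset.mem_insert_self _ _))
  have hv2S : v2 ∉ S := fun h => hv2 (Finset.mem_insert_of_mem h)
  have hv3S : v3 ∉ S := fun h => hv3 (Finset.mem_insert_of_mem (Finset.mem_insert_of_mem h))
  obtain ⟨b1, m1, i1, d1⟩ := exists_irred (𝓞 K ⧸ v1.asIdeal) (d := n) (by omega)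
  obtain ⟨b2, m2, d2, r2⟩ := exists_rootMul (𝓞 K ⧸ v2.asIdeal) (n := n) (by omega)
  obtain ⟨b3, m3, d3, r3⟩ := exists_swapKind (𝓞 K ⧸ v3.asIdeal) (n := n) h6
  obtain ⟨c1, cm1, cd1, ce1⟩ := exists_lift_one v1 b1 m1
  obtain ⟨c2, cm2, cd2, ce2⟩ := exists_lift_one v2 b2 m2
  obtain ⟨c3, cm3, cd3, ce3⟩ := exists_lift_one v3 b3 m3
  choose t ht using fun v => exists_sep K v n
  let h : HeightOneSpectrum (𝓞 K) → (𝓞 K)[X] := fun v =>
    if v = v1 then c1 else if v = v2 then c2 else if v = v3 then c3 else sp (𝓞 K) n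
  let e : HeightOneSpectrum (𝓞 K) → ℕ := fun v =>
    if v = v1 then 1 else if v = v2 then 1 else if v = v3 then 1 else n * t v
  have hh1 : h v1 = c1 := by simp [h]
  have hh2 : h v2 = c2 := by simp [h, h21]
  have hh3 : h v3 = c3 := by simp [h, h31, h32]
  have he1 : e v1 = 1 := by simp [e]
  have he2 : e v2 = 1 := by simp [e]
  have he3 : e v3 = 1 := by simp [e]
  have hhS : ∀ v ∈ S, h v = sp (𝓞 K) n ∧ e v = n * t v := by
    intro v hv
    have a1 : v ≠ v1 := fun h => hv1 (h ▸ hv)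
    have a2 : v ≠ v2 := fun h => hv2S (h ▸ hv)
    have a3 : v ≠ v3 := fun h => hv3S (h ▸ hv)
    simp [h, e, a1, a2, a3]
  have hmon : ∀ v, (h v).Monic := by
    intro v
    simp only [h]
    split_ifs
    · exact cm1
    · exact cm2
    · exact cm3
    · exact sp_monic _ _
  have hdeg : ∀ v, (h v).natDegree = n := by
    intro v
    simp only [h]
    split_ifs
    · rw [cd1, d1]
    · rw [cd2, d2]
    · rw [cd3, d3]
    · exact sp_natDegree _ _
  obtain ⟨f, hfm, hfd, hfc, hreal⟩ := exists_lift_real K (insert v3 (insert v2 (insert v1 S)))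
    (n := n) (by omega) e h (fun v _ => hmon v) (fun v _ => hdeg v)
  have q1 : f.map (Ideal.Quotient.mk v1.asIdeal) = b1 := by
    rw [← ce1, ← hh1]
    apply map_eq_of_coeff
    intro k
    have := hfc v1 (by simp) k
    rwa [he1, pow_one] at this
  have q2 : f.map (Ideal.Quotient.mk v2.asIdeal) = b2 := by
    rw [← ce2, ← hh2]
    apply map_eq_of_coeff
    intro k
    have := hfc v2 (by simp) k
    rwa [he2, pow_one] at this
  have q3 : f.map (Ideal.Quotient.mk v3.asIdeal) = b3 := by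
    rw [← ce3, ← hh3]
    apply map_eq_of_coeff
    intro k
    have := hfc v3 (by simp) k
    rwa [he3, pow_one] at this
  have hfull : Full f n v1 v2 v3 := ⟨hfm, hfd, by rw [q1]; exact i1, by rw [q2]; exact r2,
    by rw [q3]; exact r3⟩
  have hi : Irreducible f :=
    hfm.irreducible_of_irreducible_map (Ideal.Quotient.mk v1.asIdeal) f hfull.irr
  obtain ⟨L, _, _, _, hG, hs, hfaith, hgen⟩ := exists_Lf K f hfm hi
  have hcard : Nat.card {b : 𝓞 L // aeval b f = 0} = n := by
    rw [card_roots hfm hi hs, hfd]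
  have hfin : Finite {b : 𝓞 L // aeval b f = 0} := Nat.finite_of_card_ne_zero (by omega)
  let e' : {b : 𝓞 L // aeval b f = 0} ≃ Fin n := (Finite.equivFin _).trans (finCongr hcard)
  refine ⟨L, inferInstance, inferInstance, inferInstance, hG, ?_,
    fun ψ hψ y => real_above hfm hfd hreal hgen ψ hψ y, numAct e', ?_, ?_⟩
  · intro v hv w hw σ hσ
    apply hfaith
    intro b hb
    obtain ⟨g1, g2⟩ := hhS v hv
    refine split_fix (t := t v) (by omega : 0 < n) hfm hfd hi hs v (ht v) ?_ w hw σ hσ b hb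
    intro k
    have := hfc v (by simp [hv]) k
    rwa [g1, g2] at this
  · intro x y hxy
    rw [← inv_mul_eq_one]
    apply hfaith
    intro b hb
    have h1 := (numAct_eq_iff e' x (e' ⟨b, hb⟩) (numAct e' x (e' ⟨b, hb⟩))).1 rfl
    have h2 := (numAct_eq_iff e' y (e' ⟨b, hb⟩) (numAct e' x (e' ⟨b, hb⟩))).1 (by rw [hxy])
    rw [Equiv.symm_apply_apply] at h1 h2
    rw [mul_smul]
    change x⁻¹ • y • b = b
    have h3 : x • b = y • b := h1.trans h2.symm
    rw [← h3, inv_smul_smul]
  · exact full_surj hn hfull hi hs e'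

/-- the coefficients -/
def sg {m : ℕ} (k : Fin m) : ℤ := if (k : ℕ) = 0 then 1 else (-1) ^ ((k : ℕ) + 1)

/-- the first `k` numbers -/
def first (n k : ℕ) : Finset (Fin n) := Finset.univ.filter (fun i => (i : ℕ) < k)

theorem mem_first {n k : ℕ} {i : Fin n} : i ∈ first n k ↔ (i : ℕ) < k := by
  simp [first]

theorem card_first {n k : ℕ} (hk : k ≤ n) : (first n k).card = k := by
  unfold first
  rw [Fin.card_filter_val_lt]
  omega

section
variable {G : Type} [Group G] {m : ℕ} (ρ : G →* Equiv.Perm (Fin (2 * m)))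

/-- the subgroups -/
def Hk (k : ℕ) : Subgroup G :=
  if k = 0 then Stab (dgHom.comp ρ) (sb (first (2 * m) m)) else Stab ρ (first (2 * m) k)

theorem Hk_zero : Hk ρ 0 = Stab (dgHom.comp ρ) (sb (first (2 * m) m)) := if_pos rfl

theorem Hk_pos {k : ℕ} (hk : k ≠ 0) : Hk ρ k = Stab ρ (first (2 * m) k) := if_neg hk

theorem card_Hk_zero (hρ : Function.Surjective ρ) (g : G) :
    Nat.card {c : G ⧸ Hk ρ 0 // g • c = c} = pk (ρ g) m := by
  rw [Hk_zero, card_fixed_part ρ hρ, card_first (by omega)]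

theorem card_Hk_pos (hρ : Function.Surjective ρ) {k : ℕ} (hk : k ≠ 0) (hkm : k < m) (g : G) :
    Nat.card {c : G ⧸ Hk ρ k // g • c = c} = sk (ρ g) k := by
  rw [Hk_pos ρ hk, card_fixed_set ρ hρ, card_first (by omega)]

theorem relation_Hk (hρ : Function.Surjective ρ) (hm : Odd m) (g : G) :
    ∑ k : Fin m, sg k * (Nat.card {c : G ⧸ Hk ρ k // g • c = c} : ℤ) = 1 := by
  have hm0 : 0 < m := hm.pos
  have h1 := identity (ρ g) (m := m) (by simp) hm
  rw [← h1]
  refine (Fin.sum_univ_eq_sum_range (fun k => (if k = 0 then (1 : ℤ) else (-1) ^ (k + 1)) *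
    (Nat.card {c : G ⧸ Hk ρ k // g • c = c} : ℤ)) m).trans ?_
  rw [Finset.range_eq_Ico, Finset.sum_eq_sum_Ico_succ_bot hm0]
  rw [if_pos rfl, one_mul, card_Hk_zero ρ hρ, zero_add]
  congr 1
  refine Finset.sum_congr rfl fun k hk => ?_
  rw [Finset.mem_Ico] at hk
  rw [if_neg (by omega), card_Hk_pos ρ hρ (by omega) hk.2]

theorem coatom_Hk (hρ : Function.Surjective ρ) (hm : 2 ≤ m) {k : ℕ} (hk : k < m) :
    IsCoatom (Hk ρ k) := by
  have hc : ∀ j, j ≤ 2 * m → (first (2 * m) j)ᶜ.card = 2 * m - j := by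
    intro j hj
    rw [Finset.card_compl, card_first hj, Fintype.card_fin]
  by_cases h0 : k = 0
  · subst h0
    rw [Hk_zero]
    refine coatom_part' ρ hρ (by rw [card_first (by omega)]; exact hm) ?_
    rw [← Finset.card_pos, hc m (by omega)]
    omega
  · rw [Hk_pos ρ h0]
    refine coatom_set' ρ hρ ?_ ?_ ?_
    · rw [← Finset.card_pos, card_first (by omega)]
      omega
    · rw [← Finset.card_pos, hc k (by omega)]
      omega
    · rw [hc k (by omega), card_first (by omega)]
      omega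

theorem Hk_injOn (hρ : Function.Surjective ρ) {j k : ℕ} (hj : j < m) (hk : k < m)
    (h : Hk ρ j = Hk ρ k) : j = k := by
  classical
  have swapIn : ∀ (x y : Fin (2 * m)) (i : ℕ) (g : G), ρ g = Equiv.swap x y → i ≠ 0 →
      (g ∈ Hk ρ i ↔ (x ∈ first (2 * m) i ↔ y ∈ first (2 * m) i)) := by
    intro x y i g hg hi
    rw [Hk_pos ρ hi, mem_Stab, hg]
    constructor
    · intro h1
      have h2 := im_eq_iff.1 h1 x
      rw [Equiv.swap_apply_left] at h2
      exact h2.symm
    · exact im_swap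
  -- the partition subgroup against the others
  have key0 : ∀ i : ℕ, i < m → i ≠ 0 → Hk ρ 0 ≠ Hk ρ i := by
    intro i him hi h1
    let x : Fin (2 * m) := ⟨0, by omega⟩
    let y : Fin (2 * m) := ⟨i, by omega⟩
    obtain ⟨g, hg⟩ := hρ (Equiv.swap x y)
    have h2 : g ∈ Hk ρ 0 := by
      rw [Hk_zero, mem_Stab]
      change im (dg (ρ g)) _ = _
      rw [im_sb, hg, im_swap]
      rw [mem_first, mem_first]
      simp [x, y]
      omega
    rw [h1, swapIn x y i g hg hi, mem_first, mem_first] at h2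
    simp [x, y] at h2
    omega
  have key : ∀ i j : ℕ, i < j → j < m → i ≠ 0 → Hk ρ i ≠ Hk ρ j := by
    intro i j hij hjm hi h1
    let x : Fin (2 * m) := ⟨i, by omega⟩
    let y : Fin (2 * m) := ⟨j, by omega⟩
    obtain ⟨g, hg⟩ := hρ (Equiv.swap x y)
    have h2 : g ∈ Hk ρ i := by
      rw [swapIn x y i g hg hi, mem_first, mem_first]
      simp [x, y]
      omega
    rw [h1, swapIn x y j g hg (by omega), mem_first, mem_first] at h2
    simp [x, y] at h2
    omega
  rcases Nat.lt_trichotomy j k with h1 | h1 | h1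
  · exfalso
    by_cases h0 : j = 0
    · subst h0
      exact key0 k hk (by omega) h
    · exact key j k h1 hk h0 h
  · exact h1
  · exfalso
    by_cases h0 : k = 0
    · subst h0
      exact key0 j hj (by omega) h.symm
    · exact key k j h1 hj h0 h.symm

theorem sk_one {α : Type} [Fintype α] [DecidableEq α] (k : ℕ) :
    sk (1 : Equiv.Perm α) k = (Fintype.card α).choose k := by
  unfold sk
  rw [← Finset.card_univ, ← Finset.card_powersetCard]
  congr 1
  ext A
  simp [im_one, Finset.mem_powersetCard]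

theorem tk_one {α : Type} [Fintype α] [DecidableEq α] [Nonempty α] :
    tk (1 : Equiv.Perm α) = 0 := by
  unfold tk
  rw [Finset.card_eq_zero, Finset.filter_eq_empty_iff]
  intro A _ h
  rw [im_one] at h
  obtain ⟨x⟩ := (inferInstance : Nonempty α)
  have h2 := Finset.ext_iff.1 h x
  rw [Finset.mem_compl] at h2
  tauto

theorem index_Hk_zero (hρ : Function.Surjective ρ) (hm : 0 < m) :
    2 * (Hk ρ 0).index = (2 * m).choose m := by
  have h1 := card_Hk_zero ρ hρ 1
  have h2 : Nat.card {c : G ⧸ Hk ρ 0 // (1 : G) • c = c} = (Hk ρ 0).index :=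
    Nat.card_congr (Equiv.subtypeUnivEquiv fun c => one_smul _ c)
  rw [← h2, h1, map_one, two_pk (1 : Equiv.Perm (Fin (2 * m))) (by simp) hm, sk_one]
  have : Nonempty (Fin (2 * m)) := ⟨⟨0, by omega⟩⟩
  rw [tk_one, Fintype.card_fin, add_zero]

theorem index_Hk_pos (hρ : Function.Surjective ρ) {k : ℕ} (hk : k ≠ 0) (hkm : k < m) :
    (Hk ρ k).index = (2 * m).choose k := by
  have h1 := card_Hk_pos ρ hρ hk hkm 1
  have h2 : Nat.card {c : G ⧸ Hk ρ k // (1 : G) • c = c} = (Hk ρ k).index :=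
    Nat.card_congr (Equiv.subtypeUnivEquiv fun c => one_smul _ c)
  rw [← h2, h1, map_one, sk_one, Fintype.card_fin]

end

section
variable {K L : Type} [Field K] [NumberField K] [Field L] [NumberField L] [Algebra K L]
  [IsGalois K L] {m : ℕ} (ρ : Gal(L/K) →* Equiv.Perm (Fin (2 * m)))

/-- the fields -/
noncomputable def Fk (k : Fin m) : IntermediateField K L := IntermediateField.fixedField (Hk ρ k)

theorem fixing_Fk (k : Fin m) : (Fk ρ k).fixingSubgroup = Hk ρ k :=
  IntermediateField.fixingSubgroup_fixedField _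

theorem atom_Fk (hρ : Function.Surjective ρ) (hm : 2 ≤ m) (k : Fin m) : IsAtom (Fk ρ k) := by
  have h1 := coatom_Hk ρ hρ hm k.2
  rw [← fixing_Fk] at h1
  have h2 : IsAtom (OrderDual.toDual (Fk ρ k).fixingSubgroup) := isAtom_dual_iff_isCoatom.2 h1
  exact (OrderIso.isAtom_iff (IsGalois.intermediateFieldEquivSubgroup (F := K) (E := L))
    (Fk ρ k)).1 h2

theorem Fk_inj (hρ : Function.Surjective ρ) : Function.Injective (Fk (K := K) (L := L) ρ) := by
  intro j k h
  apply Fin.ext
  apply Hk_injOn ρ hρ j.2 k.2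
  rw [← fixing_Fk, ← fixing_Fk, h]

theorem finrank_Fk_zero (hρ : Function.Surjective ρ) (hm : 0 < m) (k : Fin m) (hk : (k : ℕ) = 0) :
    2 * Module.finrank K (Fk ρ k) = (2 * m).choose m := by
  rw [IntermediateField.finrank_eq_fixingSubgroup_index, fixing_Fk, hk, index_Hk_zero ρ hρ hm]

theorem finrank_Fk_pos (hρ : Function.Surjective ρ) (k : Fin m) (hk : (k : ℕ) ≠ 0) :
    Module.finrank K (Fk ρ k) = (2 * m).choose k := by
  rw [IntermediateField.finrank_eq_fixingSubgroup_index, fixing_Fk, index_Hk_pos ρ hρ hk k.2]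

theorem relation_Fk (hρ : Function.Surjective ρ) (hm : Odd m) (g : Gal(L/K)) :
    ∑ k : Fin m, sg k * fx (Fk ρ k).fixingSubgroup g = 1 := by
  rw [← relation_Hk ρ hρ hm g]
  refine Finset.sum_congr rfl fun k _ => ?_
  rw [fixing_Fk]
  rfl

end

end Pool.Agent.H67.PF
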