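import Pool.Agent.H67.PF.Split

/-! Polynomials with real roots. -/

set_option autoImplicit false
set_option linter.unusedSectionVars false

namespace Pool.Agent.H67.PF

open Polynomial

/-- the polynomial with the roots `T, 2T, …, nT` -/
noncomputable def tp (A : Type) [CommRing A] (n : ℕ) (T : A) : A[X] :=
  ∏ i ∈ Finset.range n, (X - C (T * ((i + 1 : ℕ) : A)))

theorem tp_monic (A : Type) [CommRing A] [Nontrivial A] (n : ℕ) (T : A) : (tp A n T).Monic :=
  monic_prod_X_sub_C _ _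

theorem tp_natDegree (A : Type) [CommRing A] [Nontrivial A] (n : ℕ) (T : A) :
    (tp A n T).natDegree = n := by
  unfold tp
  rw [natDegree_prod_of_monic _ _ (fun i _ => monic_X_sub_C _)]
  simp only [natDegree_X_sub_C, Finset.sum_const, Finset.card_range, smul_eq_mul, mul_one]

theorem tp_map {A B : Type} [CommRing A] [CommRing B] (φ : A →+* B) (n : ℕ) (T : A) :
    (tp A n T).map φ = tp B n (φ T) := by
  unfold tp
  rw [Polynomial.map_prod]
  refine Finset.prod_congr rfl fun i _ => ?_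
  rw [Polynomial.map_sub, map_X, map_C, map_mul, map_natCast]

theorem tp_zero (A : Type) [CommRing A] (n : ℕ) : tp A n 0 = X ^ n := by
  unfold tp
  simp

/-- the sign of the product at the half points -/
theorem sign_prod (n j : ℕ) (hj : j ≤ n) :
    (1 / 2 : ℝ) ^ n ≤ (-1) ^ (n - j) * ∏ i ∈ Finset.range n, (((j : ℝ) + 1 / 2) - ((i + 1 : ℕ) : ℝ)) := by
  have h1 : (-1 : ℝ) ^ (n - j) * ∏ i ∈ Finset.range n, (((j : ℝ) + 1 / 2) - ((i + 1 : ℕ) : ℝ)) =
      ∏ i ∈ Finset.range n, |((j : ℝ) + 1 / 2) - ((i + 1 : ℕ) : ℝ)| := by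
    obtain ⟨d, rfl⟩ := Nat.exists_eq_add_of_le hj
    rw [Nat.add_sub_cancel_left, Finset.prod_range_add, Finset.prod_range_add]
    have h2 : ∏ i ∈ Finset.range j, |((j : ℝ) + 1 / 2) - ((i + 1 : ℕ) : ℝ)| =
        ∏ i ∈ Finset.range j, (((j : ℝ) + 1 / 2) - ((i + 1 : ℕ) : ℝ)) := by
      refine Finset.prod_congr rfl fun i hi => abs_of_pos ?_
      rw [Finset.mem_range] at hi
      have : ((i + 1 : ℕ) : ℝ) ≤ j := by exact_mod_cast hi
      linarith
    have h3 : ∏ i ∈ Finset.range d, |((j : ℝ) + 1 / 2) - ((j + i + 1 : ℕ) : ℝ)| =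
        (-1) ^ d * ∏ i ∈ Finset.range d, (((j : ℝ) + 1 / 2) - ((j + i + 1 : ℕ) : ℝ)) := by
      rw [← Finset.card_range d, ← Finset.prod_const, Finset.card_range, ← Finset.prod_mul_distrib]
      refine Finset.prod_congr rfl fun i hi => ?_
      rw [abs_of_neg, neg_one_mul]
      push_cast
      have : (0 : ℝ) ≤ i := Nat.cast_nonneg i
      linarith
    rw [h2, h3]
    ring
  rw [h1, ← Finset.card_range n, ← Finset.prod_const, Finset.card_range]
  refine Finset.prod_le_prod (fun _ _ => by norm_num) fun i _ => ?_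
  rcases le_or_gt (i + 1) j with h | h
  · have : ((i + 1 : ℕ) : ℝ) ≤ j := by exact_mod_cast h
    rw [abs_of_pos (by linarith)]
    linarith
  · have : ((j + 1 : ℕ) : ℝ) ≤ ((i + 1 : ℕ) : ℝ) := by exact_mod_cast h
    push_cast at this ⊢
    rw [abs_of_neg (by linarith)]
    linarith

theorem eval_bound {g : ℝ[X]} {n : ℕ} {B : ℝ} (hg : g.degree < n) (hB : ∀ k, |g.coeff k| ≤ B)
    (hB0 : 0 ≤ B) {x Y : ℝ} (hx : |x| ≤ Y) (hY : 1 ≤ Y) :
    |g.eval x| ≤ n * B * Y ^ (n - 1) := by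
  by_cases hn : n = 0
  · subst hn
    have : g = 0 := by
      rw [← degree_eq_bot]
      exact Nat.WithBot.lt_zero_iff.1 hg
    rw [this]
    simp
  have h1 : g.natDegree < n := by
    rcases eq_or_ne g 0 with h | h
    · rw [h, natDegree_zero]
      omega
    · exact (natDegree_lt_iff_degree_lt h).2 hg
  rw [eval_eq_sum_range' h1]
  refine (Finset.abs_sum_le_sum_abs _ _).trans ?_
  have h2 : ∀ k ∈ Finset.range n, |g.coeff k * x ^ k| ≤ B * Y ^ (n - 1) := by
    intro k hk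
    rw [Finset.mem_range] at hk
    rw [abs_mul, abs_pow]
    refine mul_le_mul (hB k) ?_ (by positivity) hB0
    calc |x| ^ k ≤ Y ^ k := pow_le_pow_left₀ (abs_nonneg _) hx k
      _ ≤ Y ^ (n - 1) := pow_le_pow_right₀ hY (by omega)
  refine (Finset.sum_le_sum h2).trans ?_
  rw [Finset.sum_const, Finset.card_range, nsmul_eq_mul]
  apply le_of_eq
  ring

/-- **Real roots.** -/
theorem real_roots {n : ℕ} (hn : 0 < n) (B : ℝ) (hB0 : 0 ≤ B) : ∃ T0 : ℕ, ∀ T : ℕ, T0 ≤ T →
    ∀ g : ℝ[X], g.degree < n → (∀ k, |g.coeff k| ≤ B) →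
      ∃ r : Fin n → ℝ, Function.Injective r ∧ ∀ i, (tp ℝ n (T : ℝ) + g).eval (r i) = 0 := by
  obtain ⟨T0, hT0⟩ := exists_nat_gt (max 1 (2 ^ n * (n * B * (n + 1) ^ (n - 1))))
  refine ⟨T0, fun T hT g hg hgB => ?_⟩
  have hT' : max 1 (2 ^ n * (n * B * ((n : ℝ) + 1) ^ (n - 1))) < (T : ℝ) :=
    lt_of_lt_of_le hT0 (by exact_mod_cast hT)
  have hT1 : (1 : ℝ) < T := (le_max_left _ _).trans_lt hT'
  have hT2 : 2 ^ n * (n * B * ((n : ℝ) + 1) ^ (n - 1)) < (T : ℝ) := (le_max_right _ _).trans_lt hT'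
  set p := tp ℝ n (T : ℝ) + g with hp
  let xs : ℕ → ℝ := fun j => T * ((j : ℝ) + 1 / 2)
  have hsign : ∀ j : ℕ, j ≤ n → 0 < (-1) ^ (n - j) * p.eval (xs j) := by
    intro j hj
    have h1 : (tp ℝ n (T : ℝ)).eval (xs j) = (T : ℝ) ^ n *
        ∏ i ∈ Finset.range n, (((j : ℝ) + 1 / 2) - ((i + 1 : ℕ) : ℝ)) := by
      rw [tp, eval_prod]
      rw [← Finset.card_range n, ← Finset.prod_const, Finset.card_range, ← Finset.prod_mul_distrib]
      refine Finset.prod_congr rfl fun i _ => ?_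
      simp only [xs, eval_sub, eval_X, eval_C]
      ring
    have h2 := sign_prod n j hj
    have h3 : |g.eval (xs j)| ≤ n * B * (T * ((n : ℝ) + 1)) ^ (n - 1) := by
      refine eval_bound hg hgB hB0 ?_ ?_
      · have hj' : (j : ℝ) ≤ n := by exact_mod_cast hj
        have hj0 : (0 : ℝ) ≤ j := Nat.cast_nonneg j
        rw [abs_of_nonneg (by positivity)]
        exact mul_le_mul_of_nonneg_left (by linarith) (by linarith)
      · have : (0 : ℝ) ≤ n := Nat.cast_nonneg n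
        nlinarith
    have h4 : (1 / 2 : ℝ) ^ n * (T : ℝ) ^ n ≤ (-1) ^ (n - j) * (tp ℝ n (T : ℝ)).eval (xs j) := by
      rw [h1]
      calc (1 / 2 : ℝ) ^ n * (T : ℝ) ^ n ≤ ((-1) ^ (n - j) *
            ∏ i ∈ Finset.range n, (((j : ℝ) + 1 / 2) - ((i + 1 : ℕ) : ℝ))) * (T : ℝ) ^ n :=
            mul_le_mul_of_nonneg_right h2 (by positivity)
        _ = _ := by ring
    have h5 : n * B * (T * ((n : ℝ) + 1)) ^ (n - 1) < (1 / 2 : ℝ) ^ n * (T : ℝ) ^ n := by
      have h6 : (T : ℝ) ^ n = T ^ (n - 1) * T := by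
        rw [← pow_succ]
        congr 1
        omega
      rw [mul_pow, h6, one_div, inv_pow]
      have h7 : 0 < (T : ℝ) ^ (n - 1) := by positivity
      have h8 : (0 : ℝ) < 2 ^ n := by positivity
      have h9 : n * B * ((n : ℝ) + 1) ^ (n - 1) < (2 ^ n)⁻¹ * T := by
        rw [inv_mul_eq_div, lt_div_iff₀ h8]
        linarith
      calc n * B * ((T : ℝ) ^ (n - 1) * ((n : ℝ) + 1) ^ (n - 1)) =
            T ^ (n - 1) * (n * B * ((n : ℝ) + 1) ^ (n - 1)) := by ring
        _ < T ^ (n - 1) * ((2 ^ n)⁻¹ * T) := mul_lt_mul_of_pos_left h9 h7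
        _ = _ := by ring
    have h6 : -|g.eval (xs j)| ≤ (-1) ^ (n - j) * g.eval (xs j) := by
      rcases neg_one_pow_eq_or ℝ (n - j) with h | h
      · rw [h, one_mul]
        exact neg_abs_le _
      · rw [h, neg_one_mul]
        exact neg_le_neg (le_abs_self _)
    rw [hp, eval_add, mul_add]
    linarith
  have hxs : ∀ i j : ℕ, i ≤ j → xs i ≤ xs j := by
    intro i j hij
    have : (i : ℝ) ≤ j := by exact_mod_cast hij
    simp only [xs]
    exact mul_le_mul_of_nonneg_left (by linarith) (by linarith)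
  have hroot : ∀ i : Fin n, ∃ r : ℝ, xs i < r ∧ r < xs (i + 1) ∧ p.eval r = 0 := by
    intro i
    have h1 := hsign i (by omega)
    have h2 := hsign (i + 1) (by omega)
    have h3 : n - (i : ℕ) = (n - (i + 1)) + 1 := by omega
    rw [h3, pow_succ] at h1
    have hcont : ContinuousOn (fun x => p.eval x) (Set.Icc (xs i) (xs (i + 1))) :=
      p.continuous.continuousOn
    have hle := hxs i (i + 1) (by omega)
    rcases neg_one_pow_eq_or ℝ (n - (i + 1)) with h | h
    · rw [h] at h1 h2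
      have h4 : (0 : ℝ) ∈ Set.Ioo (p.eval (xs i)) (p.eval (xs (i + 1))) := ⟨by linarith, by linarith⟩
      obtain ⟨r, hr, hr0⟩ := intermediate_value_Ioo hle hcont h4
      exact ⟨r, hr.1, hr.2, hr0⟩
    · rw [h] at h1 h2
      have h4 : (0 : ℝ) ∈ Set.Ioo (p.eval (xs (i + 1))) (p.eval (xs i)) := ⟨by linarith, by linarith⟩
      obtain ⟨r, hr, hr0⟩ := intermediate_value_Ioo' hle hcont h4
      exact ⟨r, hr.1, hr.2, hr0⟩
  choose r hr1 hr2 hr3 using hroot
  refine ⟨r, ?_, hr3⟩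
  have hmono : StrictMono r := by
    intro i j hij
    have h1 : (i : ℕ) + 1 ≤ j := hij
    exact (hr2 i).trans_le ((hxs _ _ h1).trans (hr1 j).le)
  exact hmono.injective

end Pool.Agent.H67.PF
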