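import Pool.Agent.H67.PF.Real

/-! Lifts with real roots. -/

set_option autoImplicit false
set_option linter.unusedSectionVars false

namespace Pool.Agent.H67.PF

open NumberField IsDedekindDomain Polynomial Pool.Agent.H46.SP
open scoped Pointwise

/-- the real embeddings bound the coefficients -/
theorem real_bound (K : Type) [Field K] [NumberField K] (g : (𝓞 K)[X]) :
    ∃ B : ℝ, ∀ (φ : K →+* ℝ) (k : ℕ), |(g.map (φ.comp (algebraMap (𝓞 K) K))).coeff k| ≤ B := by
  have h1 : Finite (K →+* ℂ) := inferInstance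
  have h2 : (Set.range (fun p : (K →+* ℂ) × Fin (g.natDegree + 1) =>
      ‖p.1 (algebraMap (𝓞 K) K (g.coeff p.2))‖)).Finite := Set.finite_range _
  obtain ⟨B, hB⟩ := h2.bddAbove
  refine ⟨max B 0, fun φ k => ?_⟩
  rw [coeff_map]
  by_cases hk : k < g.natDegree + 1
  · refine le_trans ?_ (le_max_left _ _)
    have h3 := hB ⟨(Complex.ofRealHom.comp φ, ⟨k, hk⟩), rfl⟩
    have h4 : ‖(Complex.ofRealHom.comp φ) (algebraMap (𝓞 K) K (g.coeff k))‖ =
        |φ (algebraMap (𝓞 K) K (g.coeff k))| := by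
      change ‖((φ (algebraMap (𝓞 K) K (g.coeff k)) : ℝ) : ℂ)‖ = _
      rw [Complex.norm_real, Real.norm_eq_abs]
    change |φ (algebraMap (𝓞 K) K (g.coeff k))| ≤ B
    rw [← h4]
    exact h3
  · have h3 : g.coeff k = 0 := coeff_eq_zero_of_natDegree_lt (by omega)
    rw [h3, map_zero, abs_zero]
    exact le_max_right _ _

theorem exists_lift_real (K : Type) [Field K] [NumberField K]
    (S : Finset (HeightOneSpectrum (𝓞 K))) {n : ℕ} (hn0 : 0 < n) (e : HeightOneSpectrum (𝓞 K) → ℕ)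
    (h : HeightOneSpectrum (𝓞 K) → (𝓞 K)[X]) (hm : ∀ v ∈ S, (h v).Monic)
    (hn : ∀ v ∈ S, (h v).natDegree = n) :
    ∃ f : (𝓞 K)[X], f.Monic ∧ f.natDegree = n ∧
      (∀ v ∈ S, ∀ k, f.coeff k - (h v).coeff k ∈ v.asIdeal ^ e v) ∧
      ∀ φ : K →+* ℝ, ∃ r : Fin n → ℝ, Function.Injective r ∧
        ∀ i, (f.map (φ.comp (algebraMap (𝓞 K) K))).eval (r i) = 0 := by
  classical
  obtain ⟨f0, hm0, hd0, hc0⟩ := exists_lift_pow S n e h hm hn
  -- the modulus
  let q : ℕ := ∏ v ∈ S, Nat.card (𝓞 K ⧸ v.asIdeal) ^ e v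
  have hq0 : 0 < q := Finset.prod_pos fun v _ => pow_pos Nat.card_pos _
  have hq : ∀ v ∈ S, ((q : ℕ) : 𝓞 K) ∈ v.asIdeal ^ e v := by
    intro v hv
    have h1 : ((Nat.card (𝓞 K ⧸ v.asIdeal) : ℕ) : 𝓞 K) ∈ v.asIdeal := Ideal.absNorm_mem v.asIdeal
    have h2 : ((Nat.card (𝓞 K ⧸ v.asIdeal) ^ e v : ℕ) : 𝓞 K) ∈ v.asIdeal ^ e v := by
      rw [Nat.cast_pow]
      exact Ideal.pow_mem_pow h1 _
    have h3 : (Nat.card (𝓞 K ⧸ v.asIdeal) ^ e v) ∣ q := Finset.dvd_prod_of_mem _ hv
    obtain ⟨c, hc⟩ := h3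
    rw [hc, Nat.cast_mul]
    exact Ideal.mul_mem_right _ _ h2
  -- the bound
  have hdeg : (f0 - X ^ n).degree < (n : WithBot ℕ) := by
    have h1 : f0.degree = (X ^ n : (𝓞 K)[X]).degree := by
      rw [degree_X_pow, degree_eq_natDegree hm0.ne_zero, hd0]
    have h2 := degree_sub_lt_left h1 hm0.ne_zero
      (by rw [hm0.leadingCoeff, (monic_X_pow n).leadingCoeff])
    rwa [degree_eq_natDegree hm0.ne_zero, hd0] at h2
  obtain ⟨B, hB⟩ := real_bound K (f0 - X ^ n)
  have hB0 : 0 ≤ max B 0 := le_max_right _ _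
  obtain ⟨T0, hT0⟩ := real_roots hn0 (max B 0) hB0
  let T : ℕ := q * T0
  have hT : T0 ≤ T := Nat.le_mul_of_pos_left _ hq0
  have hTI : ∀ v ∈ S, ((T : ℕ) : 𝓞 K) ∈ v.asIdeal ^ e v := by
    intro v hv
    simp only [T, Nat.cast_mul]
    exact Ideal.mul_mem_right _ _ (hq v hv)
  let f := (f0 - X ^ n) + tp (𝓞 K) n (T : 𝓞 K)
  have hdeg' : (f0 - X ^ n).degree < (tp (𝓞 K) n (T : 𝓞 K)).degree := by
    rw [degree_eq_natDegree (tp_monic _ _ _).ne_zero, tp_natDegree]
    exact hdeg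
  refine ⟨f, (tp_monic _ _ _).add_of_right hdeg', ?_, ?_, ?_⟩
  · rw [natDegree_add_eq_right_of_degree_lt hdeg', tp_natDegree]
  · intro v hv k
    have h1 : (tp (𝓞 K) n (T : 𝓞 K)).coeff k - (X ^ n : (𝓞 K)[X]).coeff k ∈ v.asIdeal ^ e v := by
      rw [← Ideal.Quotient.eq, ← coeff_map, ← coeff_map, tp_map,
        Ideal.Quotient.eq_zero_iff_mem.2 (hTI v hv), tp_zero, Polynomial.map_pow, map_X]
    have h2 : f.coeff k - (h v).coeff k = (f0.coeff k - (h v).coeff k) +
        ((tp (𝓞 K) n (T : 𝓞 K)).coeff k - (X ^ n : (𝓞 K)[X]).coeff k) := by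
      simp only [f, coeff_add, coeff_sub]
      ring
    rw [h2]
    exact Ideal.add_mem _ (hc0 v hv k) h1
  · intro φ
    obtain ⟨r, hr1, hr2⟩ := hT0 T hT ((f0 - X ^ n).map (φ.comp (algebraMap (𝓞 K) K)))
      ((degree_map_le).trans_lt hdeg) (fun k => (hB φ k).trans (le_max_left _ _))
    refine ⟨r, hr1, fun i => ?_⟩
    have h1 : f.map (φ.comp (algebraMap (𝓞 K) K)) = tp ℝ n (T : ℝ) +
        (f0 - X ^ n).map (φ.comp (algebraMap (𝓞 K) K)) := by
      simp only [f]
      rw [Polynomial.map_add, tp_map, map_natCast, add_comm]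
    rw [h1]
    exact hr2 i

/-- **Reality.** -/
theorem real_above {K L : Type} [Field K] [NumberField K] [Field L] [NumberField L] [Algebra K L]
    {f : (𝓞 K)[X]} {n : ℕ} (hm : f.Monic) (hd : f.natDegree = n)
    (hr : ∀ φ : K →+* ℝ, ∃ r : Fin n → ℝ, Function.Injective r ∧
        ∀ i, (f.map (φ.comp (algebraMap (𝓞 K) K))).eval (r i) = 0)
    (hgen : ∀ A : Subalgebra K L, (∀ b : L, aeval b f = 0 → b ∈ A) → A = ⊤)
    (ψ : L →+* ℂ) (hψ : ∀ x : K, (ψ (algebraMap K L x)).im = 0) (y : L) : (ψ y).im = 0 := by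
  classical
  let φ : K →+* ℝ :=
    { toFun := fun x => (ψ (algebraMap K L x)).re
      map_one' := by simp
      map_mul' := fun x y => by
        rw [map_mul, map_mul, Complex.mul_re, hψ x, hψ y]
        ring
      map_zero' := by simp
      map_add' := fun x y => by
        rw [map_add, map_add, Complex.add_re] }
  have hφ : ∀ x : K, ψ (algebraMap K L x) = ((φ x : ℝ) : ℂ) := by
    intro x
    apply Complex.ext
    · rfl
    · rw [hψ, Complex.ofReal_im]
  obtain ⟨r, hr1, hr2⟩ := hr φ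
  set P := f.map (φ.comp (algebraMap (𝓞 K) K)) with hP
  have hPm : P.Monic := hm.map _
  have hPd : P.natDegree = n := by rw [hP, hm.natDegree_map, hd]
  have hprod : P = ∏ i : Fin n, (X - C (r i)) := by
    have hQm : (∏ i : Fin n, (X - C (r i))).Monic := monic_prod_X_sub_C _ _
    refine eq_of_monic_of_dvd_of_natDegree_le hQm hPm ?_ ?_
    · refine Finset.prod_dvd_of_coprime ?_ ?_
      · intro i _ j _ hij
        exact isCoprime_X_sub_C_of_isUnit_sub (IsUnit.mk0 _ (sub_ne_zero.2 fun h => hij (hr1 h)))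
      · intro i _
        exact dvd_iff_isRoot.2 (hr2 i)
    · rw [hPd, natDegree_prod_of_monic _ _ (fun i _ => monic_X_sub_C _)]
      simp
  let A : Subalgebra K L :=
    { carrier := {x | (ψ x).im = 0}
      mul_mem' := by
        intro a b ha hb
        have ha' : (ψ a).im = 0 := ha
        have hb' : (ψ b).im = 0 := hb
        change (ψ (a * b)).im = 0
        rw [map_mul, Complex.mul_im, ha', hb']
        ring
      add_mem' := by
        intro a b ha hb
        have ha' : (ψ a).im = 0 := ha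
        have hb' : (ψ b).im = 0 := hb
        change (ψ (a + b)).im = 0
        rw [map_add, Complex.add_im, ha', hb', add_zero]
      algebraMap_mem' := hψ }
  have hA : A = ⊤ := by
    apply hgen
    intro b hb
    change (ψ b).im = 0
    have h1 : (P.map Complex.ofRealHom).eval (ψ b) = 0 := by
      rw [hP, Polynomial.map_map, eval_map]
      have h2 : (Complex.ofRealHom.comp (φ.comp (algebraMap (𝓞 K) K))) =
          ψ.comp (algebraMap (𝓞 K) L) := by
        ext x
        change ((φ (x : K) : ℝ) : ℂ) = ψ (algebraMap K L (x : K))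
        rw [hφ]
      rw [h2, ← hom_eval₂, ← aeval_def, hb, map_zero]
    rw [hprod, Polynomial.map_prod, eval_prod, Finset.prod_eq_zero_iff] at h1
    obtain ⟨i, -, hi⟩ := h1
    rw [Polynomial.map_sub, map_X, map_C, eval_sub, eval_X, eval_C, sub_eq_zero] at hi
    rw [hi]
    exact Complex.ofReal_im _
  have hy : y ∈ A := by
    rw [hA]
    exact Algebra.mem_top
  exact hy

end Pool.Agent.H67.PF
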