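import Pool.Agent.H67.PF.Field

/-! Primes which split completely. -/

set_option autoImplicit false
set_option linter.unusedSectionVars false

namespace Pool.Agent.H67.PF

open NumberField IsDedekindDomain Polynomial Pool.Agent.H46.SP
open scoped Pointwise WithZero

/-- the totally split polynomial -/
noncomputable def sp (A : Type) [CommRing A] (n : ℕ) : A[X] :=
  ∏ i ∈ Finset.range n, (X - C (i : A))

theorem sp_monic (A : Type) [CommRing A] [Nontrivial A] (n : ℕ) : (sp A n).Monic :=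
  monic_prod_X_sub_C _ _

theorem sp_natDegree (A : Type) [CommRing A] [Nontrivial A] (n : ℕ) :
    (sp A n).natDegree = n := by
  unfold sp
  rw [natDegree_prod_of_monic _ _ (fun i _ => monic_X_sub_C _)]
  simp only [natDegree_X_sub_C, Finset.sum_const, Finset.card_range, smul_eq_mul, mul_one]

theorem le_of_prod {ι : Type} (s : Finset ι) (x : ι → ℤᵐ⁰) (a : ℤᵐ⁰) (ha : 0 < a)
    (hs : s.Nonempty) (h : ∏ i ∈ s, x i ≤ a ^ s.card) : ∃ i ∈ s, x i ≤ a := by
  by_contra hcon
  push Not at hcon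
  have h1 : ∏ _i ∈ s, a < ∏ i ∈ s, x i :=
    Finset.prod_lt_prod_of_nonempty (fun _ _ => ha) hcon hs
  rw [Finset.prod_const] at h1
  exact absurd h (not_le.2 h1)

section
variable {K L : Type} [Field K] [NumberField K] [Field L] [NumberField L] [Algebra K L]

theorem prod_roots {f : (𝓞 K)[X]} (hm : f.Monic) (hi : Irreducible f)
    (hs : (f.map (algebraMap (𝓞 K) L)).Splits) [Fintype {b : 𝓞 L // aeval b f = 0}] (x : 𝓞 L) :
    aeval x f = ∏ b : {b : 𝓞 L // aeval b f = 0}, (x - b.1) := by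
  classical
  have hcard := card_roots hm hi hs
  set P := f.map (algebraMap (𝓞 K) (𝓞 L)) with hP
  have hPm : P.Monic := hm.map _
  have hPd : P.natDegree = f.natDegree := hm.natDegree_map _
  set Q : (𝓞 L)[X] := ∏ b : {b : 𝓞 L // aeval b f = 0}, (X - C b.1) with hQ
  have hQm : Q.Monic := monic_prod_X_sub_C _ _
  have hQd : Q.natDegree = f.natDegree := by
    rw [hQ, natDegree_prod_of_monic _ _ (fun i _ => monic_X_sub_C _)]
    simp only [natDegree_X_sub_C, Finset.sum_const, Finset.card_univ, smul_eq_mul, mul_one]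
    rw [Fintype.card_eq_nat_card, hcard]
  have hdvd : Q ∣ P := by
    have h1 : Q = ((Finset.univ.val.map (fun b : {b : 𝓞 L // aeval b f = 0} => b.1)).map
        (fun a => X - C a)).prod := by
      rw [Multiset.map_map]
      rfl
    rw [h1, Multiset.prod_X_sub_C_dvd_iff_le_roots hPm.ne_zero]
    rw [Multiset.le_iff_subset]
    · intro a ha
      rw [Multiset.mem_map] at ha
      obtain ⟨b, -, rfl⟩ := ha
      rw [mem_roots hPm.ne_zero, IsRoot.def, eval_map_algebraMap]
      exact b.2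
    · exact Multiset.Nodup.map Subtype.val_injective Finset.univ.nodup
  have h2 : P = Q := eq_of_monic_of_dvd_of_natDegree_le hQm hPm hdvd (by rw [hPd, hQd])
  rw [← eval_map_algebraMap, ← hP, h2, hQ, eval_prod]
  simp

/-- **Splitting.** If `f` is close to a split polynomial at `v` then the decomposition groups of the
primes above `v` fix the roots of `f`. -/
theorem split_fix [IsGalois K L] {f : (𝓞 K)[X]} {n t : ℕ} (hn : 0 < n) (hm : f.Monic)
    (hd : f.natDegree = n) (hi : Irreducible f) (hs : (f.map (algebraMap (𝓞 K) L)).Splits)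
    (v : HeightOneSpectrum (𝓞 K))
    (ht : ∀ i j : ℕ, i < n → j < n → i ≠ j → ((i : 𝓞 K) - (j : 𝓞 K)) ∉ v.asIdeal ^ t)
    (hc : ∀ k, f.coeff k - (sp (𝓞 K) n).coeff k ∈ v.asIdeal ^ (n * t))
    (w : HeightOneSpectrum (𝓞 L)) (hw : w.asIdeal.under (𝓞 K) = v.asIdeal) (σ : Gal(L/K))
    (hσ : σ • w.asIdeal = w.asIdeal) (α : 𝓞 L) (hα : aeval α f = 0) : σ • α = α := by
  classical
  have hlies : w.asIdeal.LiesOver v.asIdeal := ⟨hw.symm⟩
  set e := v.asIdeal.ramificationIdx' w.asIdeal with he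
  have hν : ∀ x : 𝓞 K, v.intValuation x ^ e = w.intValuation (algebraMap (𝓞 K) (𝓞 L) x) :=
    fun x => HeightOneSpectrum.intValuation_liesOver v w x
  have he0 : e ≠ 0 := Ideal.IsDedekindDomain.ramificationIdx'_ne_zero_of_liesOver w.asIdeal v.ne_bot
  have hcard := card_roots hm hi hs
  have hfin : Finite {b : 𝓞 L // aeval b f = 0} := Nat.finite_of_card_ne_zero (by
    rw [hcard, hd]
    exact hn.ne')
  let _ := Fintype.ofFinite {b : 𝓞 L // aeval b f = 0}
  -- the bound
  set a : ℤᵐ⁰ := WithZero.exp (-((e * t : ℕ) : ℤ)) with ha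
  have ha0 : 0 < a := WithZero.exp_pos
  have hmem : ∀ x : 𝓞 L, w.intValuation x ≤ a ↔ x ∈ w.asIdeal ^ (e * t) :=
    fun x => w.intValuation_le_pow_iff_mem x (e * t)
  have hapow : a ^ n = WithZero.exp (-((n * t : ℕ) : ℤ)) ^ e := by
    rw [ha, ← WithZero.exp_nsmul, ← WithZero.exp_nsmul]
    congr 1
    push_cast
    ring
  -- differences of the values
  have hdiff : ∀ x : 𝓞 L, w.intValuation (aeval x f - aeval x (sp (𝓞 K) n)) ≤ a ^ n := by
    intro x
    rw [← map_sub, aeval_eq_sum_range]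
    refine Valuation.map_sum_le _ fun k _ => ?_
    rw [Algebra.smul_def, map_mul, coeff_sub, ← hν, hapow]
    calc _ ≤ WithZero.exp (-((n * t : ℕ) : ℤ)) ^ e * 1 :=
          mul_le_mul' (pow_le_pow_left' ((v.intValuation_le_pow_iff_mem _ _).2 (hc k)) e)
            (w.intValuation_le_one _)
      _ = _ := mul_one _
  have hsp : ∀ x : 𝓞 L, aeval x (sp (𝓞 K) n) = ∏ i ∈ Finset.range n, (x - (i : 𝓞 L)) := by
    intro x
    rw [sp, map_prod]
    refine Finset.prod_congr rfl fun i _ => ?_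
    rw [map_sub, aeval_X, aeval_C, map_natCast]
  -- every root is close to a number
  have h1 : ∀ b : 𝓞 L, aeval b f = 0 → ∃ i ∈ Finset.range n, w.intValuation (b - (i : 𝓞 L)) ≤ a := by
    intro b hb
    apply le_of_prod _ _ _ ha0 (Finset.nonempty_range_iff.2 hn.ne')
    rw [Finset.card_range, ← map_prod, ← hsp]
    have h2 := hdiff b
    rwa [hb, zero_sub, Valuation.map_neg] at h2
  -- every number is close to a root
  have h2 : ∀ i ∈ Finset.range n, ∃ b : {b : 𝓞 L // aeval b f = 0},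
      w.intValuation ((i : 𝓞 L) - b.1) ≤ a := by
    intro i hi'
    have h3 := hdiff (i : 𝓞 L)
    rw [hsp, Finset.prod_eq_zero hi' (sub_self _), sub_zero, prod_roots hm hi hs, map_prod] at h3
    obtain ⟨b, -, hb⟩ := le_of_prod Finset.univ
      (fun b : {b : 𝓞 L // aeval b f = 0} => w.intValuation ((i : 𝓞 L) - b.1)) a ha0 (by
        rw [← Finset.card_pos, Finset.card_univ, Fintype.card_eq_nat_card, hcard, hd]
        exact hn) (by
        rw [Finset.card_univ, Fintype.card_eq_nat_card, hcard, hd]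
        exact h3)
    exact ⟨b, hb⟩
  -- the numbers are not close
  have h3 : ∀ i j : ℕ, i < n → j < n → i ≠ j → ¬ w.intValuation ((i : 𝓞 L) - (j : 𝓞 L)) ≤ a := by
    intro i j hi' hj hij hle
    apply ht i j hi' hj hij
    rw [← v.intValuation_le_pow_iff_mem]
    have h4 : ((i : 𝓞 L) - (j : 𝓞 L)) = algebraMap (𝓞 K) (𝓞 L) ((i : 𝓞 K) - (j : 𝓞 K)) := by
      rw [map_sub, map_natCast, map_natCast]
    rw [h4, ← hν] at hle
    have h5 : a = WithZero.exp (-(t : ℤ)) ^ e := by
      rw [ha, ← WithZero.exp_nsmul]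
      congr 1
      push_cast
      ring
    rw [h5] at hle
    exact le_of_pow_le_pow_left₀ he0 zero_le hle
  choose c hc1 hc2 using h1
  have hlt : ∀ b hb, c b hb < n := fun b hb => Finset.mem_range.1 (hc1 b hb)
  have huniq : ∀ (b : 𝓞 L) (i j : ℕ), i < n → j < n → w.intValuation (b - (i : 𝓞 L)) ≤ a →
      w.intValuation (b - (j : 𝓞 L)) ≤ a → i = j := by
    intro b i j hi' hj h4 h5
    by_contra hij
    apply h3 i j hi' hj hij
    have h6 : ((i : 𝓞 L) - (j : 𝓞 L)) = (b - (j : 𝓞 L)) - (b - (i : 𝓞 L)) := by ring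
    rw [h6]
    exact (Valuation.map_sub _ _ _).trans (max_le h5 h4)
  let c' : {b : 𝓞 L // aeval b f = 0} → Fin n := fun b => ⟨c b.1 b.2, hlt b.1 b.2⟩
  have hsurj : Function.Surjective c' := by
    rintro ⟨i, hi'⟩
    obtain ⟨b, hb⟩ := h2 i (Finset.mem_range.2 hi')
    refine ⟨b, Fin.ext ?_⟩
    refine huniq b.1 _ _ (hlt _ _) hi' (hc2 _ _) ?_
    rw [← Valuation.map_neg, neg_sub]
    exact hb
  have hinj : Function.Injective c' := by
    have h5 : Function.Bijective c' := by
      rw [Fintype.bijective_iff_surjective_and_card]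
      refine ⟨hsurj, ?_⟩
      rw [Fintype.card_eq_nat_card, hcard, hd, Fintype.card_fin]
    exact h5.1
  have hσα := aeval_smul σ hα
  have h6 : c' ⟨σ • α, hσα⟩ = c' ⟨α, hα⟩ := by
    apply Fin.ext
    refine huniq (σ • α) _ _ (hlt _ _) (hlt _ _) (hc2 _ _) ?_
    change w.intValuation (σ • α - ((c α hα : ℕ) : 𝓞 L)) ≤ a
    rw [hmem]
    have h7 : σ • α - ((c α hα : ℕ) : 𝓞 L) = σ • (α - ((c α hα : ℕ) : 𝓞 L)) := by
      rw [smul_sub]
      congr 1
      exact (map_natCast (MulSemiringAction.toRingHom Gal(L/K) (𝓞 L) σ) _).symm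
    rw [h7]
    have h8 : σ • (w.asIdeal ^ (e * t)) = w.asIdeal ^ (e * t) := by
      rw [smul_pow', hσ]
    rw [← h8]
    exact Ideal.smul_mem_pointwise_smul _ _ _ ((hmem _).1 (hc2 α hα))
  exact congrArg (fun z => z.1) (hinj h6)

end

/-- monic polynomials with prescribed reductions modulo powers -/
theorem exists_lift_pow {A : Type} [CommRing A] [IsDedekindDomain A]
    (T : Finset (HeightOneSpectrum A)) (n : ℕ) (e : HeightOneSpectrum A → ℕ)
    (h : HeightOneSpectrum A → A[X]) (hm : ∀ v ∈ T, (h v).Monic)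
    (hn : ∀ v ∈ T, (h v).natDegree = n) :
    ∃ f : A[X], f.Monic ∧ f.natDegree = n ∧
      ∀ v ∈ T, ∀ k, f.coeff k - (h v).coeff k ∈ v.asIdeal ^ e v := by
  classical
  have h1 : ∀ k : ℕ, ∃ y : A, ∀ v ∈ T, y - (h v).coeff k ∈ v.asIdeal ^ e v := by
    intro k
    obtain ⟨y, hy⟩ := IsDedekindDomain.exists_forall_sub_mem_ideal (s := T)
      (fun v : HeightOneSpectrum A => v.asIdeal) e (fun v _ => v.prime)
      (fun v _ w _ hvw h => hvw (HeightOneSpectrum.ext h))
      (fun v => (h v.1).coeff k)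
    exact ⟨y, hy⟩
  choose c hc using h1
  have hdeg : (∑ k ∈ Finset.range n, C (c k) * X ^ k : A[X]).degree < n := by
    refine (degree_sum_le _ _).trans_lt ((Finset.sup_lt_iff (WithBot.bot_lt_coe n)).2 ?_)
    intro k hk
    exact (degree_C_mul_X_pow_le k (c k)).trans_lt (WithBot.coe_lt_coe.2 (Finset.mem_range.1 hk))
  refine ⟨X ^ n + ∑ k ∈ Finset.range n, C (c k) * X ^ k, monic_X_pow_add hdeg, ?_, ?_⟩
  · rw [natDegree_add_eq_left_of_degree_lt, natDegree_X_pow]
    rw [degree_X_pow]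
    exact hdeg
  · intro v hv k
    rw [(hm v hv).as_sum, hn v hv, ← coeff_sub, add_sub_add_left_eq_sub,
      ← Finset.sum_sub_distrib, finsetSum_coeff]
    refine Ideal.sum_mem _ fun j _ => ?_
    rw [← sub_mul, ← C_sub, coeff_C_mul_X_pow]
    split_ifs with hkj
    · exact hc j v hv
    · exact Ideal.zero_mem _

theorem map_eq_of_coeff {A : Type} [CommRing A] (I : Ideal A) {f h : A[X]}
    (hc : ∀ k, f.coeff k - h.coeff k ∈ I) :
    f.map (Ideal.Quotient.mk I) = h.map (Ideal.Quotient.mk I) := by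
  ext k
  rw [coeff_map, coeff_map]
  exact Ideal.Quotient.eq.2 (hc k)

/-- monic lifts of one polynomial -/
theorem exists_lift_one {A : Type} [CommRing A] [IsDedekindDomain A] (v : HeightOneSpectrum A)
    (h : (A ⧸ v.asIdeal)[X]) (hm : h.Monic) :
    ∃ f : A[X], f.Monic ∧ f.natDegree = h.natDegree ∧ f.map (Ideal.Quotient.mk v.asIdeal) = h := by
  classical
  obtain ⟨f, h1, h2, h3⟩ := exists_monic_lift {v} h.natDegree
    (fun u => if hu : u = v then hu ▸ h else 0) (by
      intro u hu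
      rw [Finset.mem_singleton] at hu
      subst hu
      rw [dif_pos rfl]
      exact hm) (by
      intro u hu
      rw [Finset.mem_singleton] at hu
      subst hu
      rw [dif_pos rfl])
  refine ⟨f, h1, h2, ?_⟩
  rw [h3 v (Finset.mem_singleton_self v), dif_pos rfl]

/-- a bound for the congruences between small numbers -/
theorem exists_sep (K : Type) [Field K] [NumberField K] (v : HeightOneSpectrum (𝓞 K)) (n : ℕ) :
    ∃ t : ℕ, ∀ i j : ℕ, i < n → j < n → i ≠ j → ((i : 𝓞 K) - (j : 𝓞 K)) ∉ v.asIdeal ^ t := by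
  classical
  have h1 : ∀ x : 𝓞 K, x ≠ 0 → ∃ t : ℕ, x ∉ v.asIdeal ^ t := by
    intro x hx
    by_contra hcon
    push Not at hcon
    apply hx
    have h2 : x ∈ ⨅ i : ℕ, v.asIdeal ^ i := by
      rw [Ideal.mem_iInf]
      exact hcon
    rw [Ideal.iInf_pow_eq_bot_of_isDomain _ v.isPrime.ne_top] at h2
    exact h2
  have h2 : ∀ p : ℕ × ℕ, ∃ t : ℕ, p.1 ≠ p.2 → ((p.1 : 𝓞 K) - (p.2 : 𝓞 K)) ∉ v.asIdeal ^ t := by
    intro p
    by_cases hp : p.1 = p.2
    · exact ⟨0, fun h => absurd hp h⟩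
    · obtain ⟨t, ht⟩ := h1 ((p.1 : 𝓞 K) - (p.2 : 𝓞 K)) (by
        rw [sub_ne_zero]
        exact_mod_cast hp)
      exact ⟨t, fun _ => ht⟩
  choose t ht using h2
  refine ⟨(Finset.range n ×ˢ Finset.range n).sup t, fun i j hi hj hij h => ?_⟩
  refine ht (i, j) hij (Ideal.pow_le_pow_right ?_ h)
  exact Finset.le_sup (f := t) (Finset.mem_product.2 ⟨Finset.mem_range.2 hi, Finset.mem_range.2 hj⟩)

end Pool.Agent.H67.PF
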