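import Pool.Agent.H67.PF.Real2

/-! Primes which split completely: the number of the primes above. -/

set_option autoImplicit false
set_option linter.unusedSectionVars false

namespace Pool.Agent.H67.PF

open NumberField IsDedekindDomain Polynomial Pool.Agent.H46.SP
open scoped Pointwise

section
variable {K L : Type} [Field K] [NumberField K] [Field L] [NumberField L] [Algebra K L]
  [IsGalois K L]

/-- conjugation by the elements which fix `F` does not change the prime of `F` below -/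
theorem under_smul (F : IntermediateField K L) {h : Gal(L/K)} (hh : h ∈ F.fixingSubgroup)
    (I : Ideal (𝓞 L)) : (h • I).under (𝓞 F) = I.under (𝓞 F) := by
  ext x
  change algebraMap (𝓞 F) (𝓞 L) x ∈ h • I ↔ algebraMap (𝓞 F) (𝓞 L) x ∈ I
  rw [Ideal.mem_pointwise_smul_iff_inv_smul_mem]
  have h1 : h⁻¹ • algebraMap (𝓞 F) (𝓞 L) x = algebraMap (𝓞 F) (𝓞 L) x := by
    apply RingOfIntegers.coe_injective (K := L)
    exact (IntermediateField.mem_fixingSubgroup_iff F h⁻¹).1 (F.fixingSubgroup.inv_mem hh) _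
      (x : F).2
  rw [h1]

theorem exists_fixing (F : IntermediateField K L) {I J : Ideal (𝓞 L)} [I.IsPrime] [J.IsPrime]
    (h : I.under (𝓞 F) = J.under (𝓞 F)) : ∃ g ∈ F.fixingSubgroup, J = g • I := by
  obtain ⟨g, hg⟩ := Algebra.IsInvariant.exists_smul_of_under_eq (𝓞 F) (𝓞 L) Gal(L/F) I J h
  refine ⟨AlgEquiv.restrictScalars K g, ?_, ?_⟩
  · rw [IntermediateField.mem_fixingSubgroup_iff]
    intro x hx
    exact g.commutes ⟨x, hx⟩
  · rw [hg]
    have h1 : ∀ x : 𝓞 L, g⁻¹ • x = (AlgEquiv.restrictScalars K g)⁻¹ • x := by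
      intro x
      apply RingOfIntegers.coe_injective (K := L)
      rfl
    ext x
    rw [Ideal.mem_pointwise_smul_iff_inv_smul_mem, Ideal.mem_pointwise_smul_iff_inv_smul_mem, h1]

/-- **The number of the primes.** -/
theorem card_primes (F : IntermediateField K L) (v : HeightOneSpectrum (𝓞 K))
    (hv : ∀ w : HeightOneSpectrum (𝓞 L), w.asIdeal.under (𝓞 K) = v.asIdeal →
      ∀ σ : Gal(L/K), σ • w.asIdeal = w.asIdeal → σ = 1) :
    Nat.card {u : HeightOneSpectrum (𝓞 F) // u.asIdeal.under (𝓞 K) = v.asIdeal} =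
      Module.finrank K F := by
  classical
  obtain ⟨W, hW⟩ := exists_above (L := L) v
  have hsm : ∀ σ : Gal(L/K), (σ • W.asIdeal).under (𝓞 K) = v.asIdeal := by
    intro σ
    rw [← hW]
    ext x
    change algebraMap (𝓞 K) (𝓞 L) x ∈ σ • W.asIdeal ↔ algebraMap (𝓞 K) (𝓞 L) x ∈ W.asIdeal
    rw [Ideal.mem_pointwise_smul_iff_inv_smul_mem]
    have h1 : σ⁻¹ • algebraMap (𝓞 K) (𝓞 L) x = algebraMap (𝓞 K) (𝓞 L) x := by
      apply RingOfIntegers.coe_injective (K := L)
      exact (σ⁻¹).commutes (x : K)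
    rw [h1]
  have hne : ∀ σ : Gal(L/K), (σ • W.asIdeal).under (𝓞 F) ≠ ⊥ := by
    intro σ
    exact Ideal.IsIntegral.comap_ne_bot (𝓞 F) (smul_ne_bot W.ne_bot σ)
  let Φ0 : Gal(L/K) → {u : HeightOneSpectrum (𝓞 F) // u.asIdeal.under (𝓞 K) = v.asIdeal} :=
    fun σ => ⟨⟨(σ⁻¹ • W.asIdeal).under (𝓞 F), inferInstance, hne σ⁻¹⟩, by
      change ((σ⁻¹ • W.asIdeal).under (𝓞 F)).under (𝓞 K) = v.asIdeal
      rw [Ideal.under_under, hsm]⟩
  have hΦ0 : ∀ σ τ : Gal(L/K), Φ0 σ = Φ0 τ ↔ σ⁻¹ * τ ∈ F.fixingSubgroup := by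
    intro σ τ
    have e1 : Φ0 σ = Φ0 τ ↔ (σ⁻¹ • W.asIdeal).under (𝓞 F) = (τ⁻¹ • W.asIdeal).under (𝓞 F) := by
      rw [Subtype.ext_iff, HeightOneSpectrum.ext_iff]
    rw [e1]
    constructor
    · intro h
      obtain ⟨g, hg, hgW⟩ := exists_fixing F h
      have h2 : (τ * g * σ⁻¹) • W.asIdeal = W.asIdeal := by
        rw [mul_smul, mul_smul, ← hgW, smul_inv_smul]
      have h3 := hv W hW _ h2
      have h4 : σ⁻¹ * τ = g⁻¹ := by
        have h5 : τ * g = σ := by
          rw [mul_inv_eq_one] at h3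
          exact h3
        rw [← h5]
        group
      rw [h4]
      exact F.fixingSubgroup.inv_mem hg
    · intro h
      have h2 : σ⁻¹ • W.asIdeal = (σ⁻¹ * τ) • (τ⁻¹ • W.asIdeal) := by
        rw [mul_smul, smul_inv_smul]
      rw [h2, under_smul F h]
  let Φ : Gal(L/K) ⧸ F.fixingSubgroup →
      {u : HeightOneSpectrum (𝓞 F) // u.asIdeal.under (𝓞 K) = v.asIdeal} :=
    fun c => Quotient.liftOn' c Φ0 (by
      intro σ τ h
      rw [QuotientGroup.leftRel_apply] at h
      exact (hΦ0 σ τ).2 h)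
  have hΦ : Function.Bijective Φ := by
    constructor
    · intro c d h
      induction c using QuotientGroup.induction_on with
      | H x =>
        induction d using QuotientGroup.induction_on with
        | H y => exact QuotientGroup.eq.2 ((hΦ0 x y).1 h)
    · rintro ⟨u, hu⟩
      obtain ⟨w, hw⟩ := exists_above (L := L) u
      have h1 : w.asIdeal.under (𝓞 K) = v.asIdeal := by
        rw [← hu, ← hw, Ideal.under_under]
      obtain ⟨σ, hσ⟩ := Algebra.IsInvariant.exists_smul_of_under_eq (𝓞 K) (𝓞 L) Gal(L/K)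
        W.asIdeal w.asIdeal (hW.trans h1.symm)
      refine ⟨QuotientGroup.mk σ⁻¹, ?_⟩
      apply Subtype.ext
      apply HeightOneSpectrum.ext
      change (σ⁻¹⁻¹ • W.asIdeal).under (𝓞 F) = u.asIdeal
      rw [inv_inv, ← hσ, hw]
  rw [IntermediateField.finrank_eq_fixingSubgroup_index]
  exact (Nat.card_congr (Equiv.ofBijective Φ hΦ)).symm

/-- real embeddings of subfields -/
theorem real_inter (F : IntermediateField K L)
    (hL : ∀ ψ : L →+* ℂ, (∀ x : K, (ψ (algebraMap K L x)).im = 0) → ∀ y, (ψ y).im = 0)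
    (ψ : F →+* ℂ) (hψ : ∀ x : K, (ψ (algebraMap K F x)).im = 0) (y : F) : (ψ y).im = 0 := by
  let _ : Algebra F ℂ := ψ.toAlgebra
  let Ψ : L →ₐ[F] ℂ := IsAlgClosed.lift
  have h1 : ∀ x : F, Ψ (algebraMap F L x) = ψ x := fun x => Ψ.commutes x
  rw [← h1]
  refine hL Ψ.toRingHom (fun x => ?_) _
  change (Ψ (algebraMap F L (algebraMap K F x))).im = 0
  rw [h1]
  exact hψ x

end

end Pool.Agent.H67.PF
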