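import Pool.Agent.H67.PF.Main

/-! Every relation with proper subgroups contains at least three of them. -/

set_option autoImplicit false
set_option linter.unusedSectionVars false

namespace Pool.Agent.H67.PF

open NumberField IsDedekindDomain Polynomial Pool.Agent.H46.SP
open scoped Pointwise
open Pool.Agent.R433.MD (emb fx fx_eq_emb)

section
variable {G : Type} [Group G] [Finite G]

theorem sum_fx [Fintype G] (H : Subgroup G) : ∑ g : G, fx H g = Nat.card G := by
  classical
  have hf : Fintype (G ⧸ H) := Fintype.ofFinite _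
  have h1 := MulAction.sum_card_fixedBy_eq_card_orbits_mul_card_group G (G ⧸ H)
  have h2 : Fintype.card (MulAction.orbitRel.Quotient G (G ⧸ H)) = 1 := by
    rw [Fintype.card_eq_one_iff_nonempty_unique]
    exact ⟨⟨⟨Quotient.mk _ ((1 : G) : G ⧸ H)⟩, fun x => by
      induction x using Quotient.inductionOn with
      | h a =>
        apply Quotient.sound
        exact MulAction.exists_smul_eq G _ _⟩⟩
  rw [h2, one_mul] at h1
  rw [← Fintype.card_eq_nat_card, ← h1, Nat.cast_sum]
  refine Finset.sum_congr rfl fun g _ => ?_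
  unfold fx
  rw [Fintype.card_eq_nat_card]
  rfl

theorem fx_nonneg (H : Subgroup G) (g : G) : 0 ≤ fx H g := Nat.cast_nonneg _

theorem fx_one (H : Subgroup G) : fx H 1 = H.index := by
  unfold fx
  congr 1
  exact Nat.card_congr (Equiv.subtypeUnivEquiv fun c => one_smul _ c)

theorem exists_fx_zero (H : Subgroup G) (hH : H ≠ ⊤) : ∃ g : G, fx H g = 0 := by
  classical
  by_contra hcon
  push Not at hcon
  have hf : Fintype G := Fintype.ofFinite G
  have h1 := sum_fx H
  have h2 : ∀ g ∈ Finset.univ, (1 : ℤ) ≤ fx H g := fun g _ =>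
    lt_of_le_of_ne (fx_nonneg H g) (Ne.symm (hcon g))
  have h3 : (1 : ℤ) < fx H 1 := by
    rw [fx_one]
    have h4 : H.index ≠ 0 := Subgroup.index_ne_zero_of_finite
    have h5 : H.index ≠ 1 := fun h => hH (Subgroup.index_eq_one.1 h)
    have h6 : 1 < H.index := by omega
    exact_mod_cast h6
  have h4 : ∑ _g : G, (1 : ℤ) < ∑ g : G, fx H g :=
    Finset.sum_lt_sum h2 ⟨1, Finset.mem_univ _, h3⟩
  rw [h1, Finset.sum_const, Finset.card_univ, Fintype.card_eq_nat_card] at h4
  simp at h4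

theorem three_pos {ι : Type} (S : Finset ι) (H : ι → Subgroup G) (hH : ∀ i ∈ S, H i ≠ ⊤)
    (n : ι → ℤ) (c : ℤ) (hc : 0 < c) (h : ∀ g, ∑ i ∈ S, n i * fx (H i) g = c) :
    ∃ i ∈ S, ∃ j ∈ S, ∃ k ∈ S, i ≠ j ∧ 0 < n i ∧ 0 < n j ∧ n k < 0 := by
  classical
  have hfin : Fintype G := Fintype.ofFinite G
  have hex : ∀ T : Finset ι, T ⊆ S → T.card ≤ 1 → ∃ k ∈ S \ T, 0 < n k := by
    intro T hT hcard
    by_contra hcon
    push Not at hcon
    obtain ⟨g, hg⟩ : ∃ g : G, ∀ i ∈ T, fx (H i) g = 0 := by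
      rcases Nat.lt_or_ge 0 T.card with h0 | h0
      · obtain ⟨x, rfl⟩ := Finset.card_eq_one.1 (by omega : T.card = 1)
        obtain ⟨g, hg⟩ := exists_fx_zero (H x) (hH x (hT (Finset.mem_singleton_self x)))
        refine ⟨g, fun i hi => ?_⟩
        rw [Finset.mem_singleton.1 hi, hg]
      · refine ⟨1, fun i hi => ?_⟩
        rw [Finset.card_eq_zero.1 (by omega : T.card = 0)] at hi
        exact absurd hi (Finset.notMem_empty i)
    have h1 := h g
    rw [← Finset.sum_sdiff hT, Finset.sum_eq_zero (s := T) (fun i hi => by rw [hg i hi, mul_zero]),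
      add_zero] at h1
    have h2 : ∑ i ∈ S \ T, n i * fx (H i) g ≤ 0 :=
      Finset.sum_nonpos fun i hi => mul_nonpos_of_nonpos_of_nonneg (hcon i hi) (fx_nonneg _ _)
    omega
  obtain ⟨i, hi, hni⟩ := hex ∅ (Finset.empty_subset _) (by simp)
  rw [Finset.sdiff_empty] at hi
  obtain ⟨j, hj, hnj⟩ := hex {i} (by simpa using hi) (by simp)
  rw [Finset.mem_sdiff, Finset.mem_singleton] at hj
  refine ⟨i, hi, j, hj.1, ?_⟩
  by_contra hcon
  have hpos : ∀ k ∈ S, 0 ≤ n k := by
    intro k hk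
    by_contra hk'
    exact hcon ⟨k, hk, fun h => hj.2 h.symm, hni, hnj, not_le.1 hk'⟩
  have h1 := h 1
  have h2 : ∑ g : G, ∑ i ∈ S, n i * fx (H i) g = Nat.card G * c := by
    rw [Finset.sum_congr rfl (fun g _ => h g), Finset.sum_const, Finset.card_univ,
      Fintype.card_eq_nat_card, nsmul_eq_mul]
  rw [Finset.sum_comm] at h2
  have h3 : ∀ i ∈ S, ∑ g : G, n i * fx (H i) g = n i * Nat.card G := by
    intro i _
    rw [← Finset.mul_sum, sum_fx]
  rw [Finset.sum_congr rfl h3, ← Finset.sum_mul, mul_comm] at h2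
  have h4 : (Nat.card G : ℤ) ≠ 0 := by
    have : Nat.card G ≠ 0 := Nat.card_pos.ne'
    exact_mod_cast this
  have h5 : ∑ i ∈ S, n i = c := mul_left_cancel₀ h4 h2
  have h6 : ∑ i ∈ S, n i * 2 ≤ ∑ i ∈ S, n i * fx (H i) 1 := by
    refine Finset.sum_le_sum fun i hi => mul_le_mul_of_nonneg_left ?_ (hpos i hi)
    rw [fx_one]
    have h7 : (H i).index ≠ 0 := Subgroup.index_ne_zero_of_finite
    have h8 : (H i).index ≠ 1 := fun h => hH i hi (Subgroup.index_eq_one.1 h)
    have h9 : 2 ≤ (H i).index := by omega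
    exact_mod_cast h9
  rw [← Finset.sum_mul, h5, h1] at h6
  omega

end

end Pool.Agent.H67.PF
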